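import Pool.Agent.H990.SF.Places

/-!
# The overlaps are algebraic numbers
-/

set_option autoImplicit false
set_option linter.unusedSectionVars false

namespace Pool.Agent.H990.SF

open Finset Polynomial Pool.Agent.H207.WH

/-- an element of all valuation rings with residue field of characteristic zero is algebraic -/
theorem alg_of_places {L : Type*} [Field L] [CharZero L] (x : L)
    (h : ∀ B : ValuationSubring L, ResZero B → x ∈ B) : IsAlgebraic ℚ x := by
  by_contra hx
  have hx0 : x ≠ 0 := by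
    intro h0
    apply hx
    rw [h0]
    exact isAlgebraic_zero
  let A : Subring L := (Algebra.adjoin ℚ {x⁻¹}).toSubring
  have hxA : x⁻¹ ∈ A := Algebra.subset_adjoin (Set.mem_singleton _)
  have hI : Ideal.span {(⟨x⁻¹, hxA⟩ : A)} ≠ ⊤ := by
    intro htop
    have h1 : (1 : A) ∈ Ideal.span {(⟨x⁻¹, hxA⟩ : A)} := by rw [htop]; trivial
    rw [Ideal.mem_span_singleton'] at h1
    obtain ⟨⟨a, ha⟩, hab⟩ := h1
    have h2 : a * x⁻¹ = 1 := congrArg Subtype.val hab
    have ha' : a ∈ Algebra.adjoin ℚ {x⁻¹} := ha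
    rw [Algebra.adjoin_singleton_eq_range_aeval] at ha'
    obtain ⟨f, hf⟩ := ha'
    have hf' : aeval x⁻¹ f = a := hf
    have h3 : IsAlgebraic ℚ x⁻¹ := by
      refine ⟨1 - X * f, ?_, ?_⟩
      · intro h0
        have h4 : (1 - X * f : ℚ[X]).coeff 0 = 1 := by simp
        rw [h0, coeff_zero] at h4
        exact zero_ne_one h4
      · rw [map_sub, map_mul, aeval_X, hf', map_one, mul_comm, h2, sub_self]
    apply hx
    have := h3.inv
    rwa [inv_inv] at this
  obtain ⟨B, hAB, hBn⟩ := Ideal.image_subset_nonunits_valuationSubring _ hI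
  have h2 : x⁻¹ ∈ B.nonunits :=
    hBn ⟨⟨x⁻¹, hxA⟩, Ideal.subset_span (by simp), rfl⟩
  rw [ValuationSubring.inv_mem_nonunits_iff] at h2
  rcases h2 with h2 | h2
  · exact hx0 h2
  · apply h2
    apply h
    intro n hn
    have hn0 : (n : L) ≠ 0 := by exact_mod_cast hn
    apply le_antisymm
    · rw [B.valuation_le_one_iff]
      exact natCast_mem B n
    · have h3 : (n : L)⁻¹ ∈ B := by
        apply hAB
        show (n : L)⁻¹ ∈ Algebra.adjoin ℚ {x⁻¹}
        have h4 : (n : L)⁻¹ = algebraMap ℚ L ((n : ℚ)⁻¹) := by simp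
        rw [h4]
        exact Subalgebra.algebraMap_mem _ _
      rw [← B.valuation_le_one_iff, map_inv₀] at h3
      rwa [inv_le_one₀ (zero_lt_iff.mpr ((_root_.map_ne_zero _).mpr hn0))] at h3

variable {L : Type*} [Field L] [CharZero L] {p : ℕ} [Fact p.Prime]

/-- **Algebraicity of the overlaps.** -/
theorem alg_ov (hp5 : 5 ≤ p) {χ : AddChar (ZMod p) L} (hχ : χ.IsPrimitive)
    {w u : ZMod p → L} (hS : Sic χ w u) (a b : ZMod p) : IsAlgebraic ℚ (ov χ w u a b) :=
  alg_of_places _ (fun _ hB => all_mem hp5 hB hχ hS a b)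

theorem alg_chi (χ : AddChar (ZMod p) L) (t : ZMod p) : IsAlgebraic ℚ (χ t) := by
  have hp : p.Prime := Fact.out
  refine IsAlgebraic.of_pow hp.pos ?_
  rw [chi_pow]
  exact isAlgebraic_one

/-- **Algebraicity of the entries.** -/
theorem alg_entry (hp5 : 5 ≤ p) {χ : AddChar (ZMod p) L} (hχ : χ.IsPrimitive)
    {w u : ZMod p → L} (hS : Sic χ w u) (x y : ZMod p) : IsAlgebraic ℚ (w x * u y) := by
  have hp : p.Prime := Fact.out
  have hp0 : (p : L) ≠ 0 := by exact_mod_cast hp.ne_zero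
  have h1 : w x * u y = (p : L)⁻¹ * ∑ b, ov χ w u (y - x) b * χ (b * (-x)) := by
    rw [← inversion hχ, add_sub_cancel, ← mul_assoc, inv_mul_cancel₀ hp0, one_mul]
  rw [h1]
  apply IsAlgebraic.mul
  · exact (isAlgebraic_natCast p).inv
  · have h2 : ∀ b, IsAlgebraic ℚ (ov χ w u (y - x) b * χ (b * (-x))) :=
      fun b => (alg_ov hp5 hχ hS _ b).mul (alg_chi χ _)
    exact Finset.sum_induction _ (IsAlgebraic ℚ) (fun _ _ => IsAlgebraic.add) isAlgebraic_zero
      (fun b _ => h2 b)

end Pool.Agent.H990.SF
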