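import Pool.Graph.R_pool_sql_team_seeded_620a6dc7.H207.WH.Cong

/-!
# Annihilating functions on `F_p`, and the Fourier transform
-/

set_option autoImplicit false

namespace Pool.Agent.H990.SF

open Finset Pool.Agent.H207.WH

variable {p : ℕ} [Fact p.Prime] {k : Type*} [Field k]

/-- product of two Fourier transforms -/
theorem four_mul (χ : AddChar (ZMod p) k) (F G : ZMod p → k) (b : ZMod p) :
    (∑ x, F x * χ (x * b)) * (∑ y, G y * χ (y * (-b)))
      = ∑ j, χ (j * (-b)) * ∑ x, F x * G (x + j) := by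
  rw [Finset.sum_mul_sum]
  simp_rw [Finset.mul_sum]
  conv_rhs => rw [Finset.sum_comm]
  apply Finset.sum_congr rfl
  intro x _
  rw [← Equiv.sum_comp (Equiv.addLeft x)]
  apply Finset.sum_congr rfl
  intro j _
  simp only [Equiv.coe_addLeft]
  have e1 : χ (x * b) * χ ((x + j) * (-b)) = χ (j * (-b)) := by
    rw [← AddChar.map_add_eq_mul]; congr 1; ring
  rw [← e1]; ring

open Classical in
/-- **Annihilators.** Two nonzero functions on `F_p` (characteristic zero) with vanishing
correlation have together at least `p + 2` nonzero values. -/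
theorem ann [CharZero k] {χ : AddChar (ZMod p) k} (hχ : χ.IsPrimitive) (F G : ZMod p → k)
    (hF : ∃ x, F x ≠ 0) (hG : ∃ x, G x ≠ 0) (h : ∀ j, ∑ x, F x * G (x + j) = 0) :
    p + 2 ≤ (univ.filter (fun x => F x ≠ 0)).card + (univ.filter (fun x => G x ≠ 0)).card := by
  have h1 := tao hχ F hF
  have h2 := tao hχ G hG
  have h3 : ∀ b, (∑ x, F x * χ (x * b) = 0) ∨ (∑ y, G y * χ (y * (-b)) = 0) := by
    intro b
    rw [← mul_eq_zero, four_mul]
    apply Finset.sum_eq_zero
    intro j _
    rw [h, mul_zero]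
  have h4 : (univ.filter (fun b => ∑ x, G x * χ (x * b) ≠ 0)).card
      = (univ.filter (fun b => ∑ y, G y * χ (y * (-b)) ≠ 0)).card := by
    apply Finset.card_bij (fun b _ => -b)
    · intro b hb
      simp only [Finset.mem_filter, mem_univ, true_and, neg_neg] at hb ⊢
      exact hb
    · intro a _ b _ hab
      exact neg_injective hab
    · intro b hb
      refine ⟨-b, ?_, neg_neg b⟩
      simp only [Finset.mem_filter, mem_univ, true_and] at hb ⊢
      exact hb
  have h5 : Disjoint (univ.filter (fun b => ∑ x, F x * χ (x * b) ≠ 0))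
      (univ.filter (fun b => ∑ y, G y * χ (y * (-b)) ≠ 0)) := by
    rw [Finset.disjoint_filter]
    intro b _ hb hb'
    rcases h3 b with h6 | h6
    · exact hb h6
    · exact hb' h6
  have h6 := Finset.card_union_of_disjoint h5
  have h7 : ((univ.filter (fun b => ∑ x, F x * χ (x * b) ≠ 0)) ∪
      (univ.filter (fun b => ∑ y, G y * χ (y * (-b)) ≠ 0))).card ≤ p := by
    have := Finset.card_le_univ ((univ.filter (fun b => ∑ x, F x * χ (x * b) ≠ 0)) ∪
      (univ.filter (fun b => ∑ y, G y * χ (y * (-b)) ≠ 0)))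
    rwa [ZMod.card] at this
  omega

/-- pigeonhole -/
theorem pigeon (S T : Finset (ZMod p)) (h : p < S.card + T.card) (a : ZMod p) :
    ∃ x ∈ S, x + a ∈ T := by
  classical
  by_contra hcon
  push Not at hcon
  have h1 : Disjoint (S.image (fun x => x + a)) T := by
    rw [Finset.disjoint_left]
    intro y hy hyT
    obtain ⟨x, hx, rfl⟩ := Finset.mem_image.mp hy
    exact hcon x hx hyT
  have h2 := Finset.card_union_of_disjoint h1
  rw [Finset.card_image_of_injective S (add_left_injective a)] at h2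
  have h3 := Finset.card_le_univ (S.image (fun x => x + a) ∪ T)
  rw [ZMod.card] at h3
  omega

/-- Fourier inversion for the overlaps -/
theorem inversion {χ : AddChar (ZMod p) k} (hχ : χ.IsPrimitive) (w u : ZMod p → k)
    (a x : ZMod p) : (p : k) * (w x * u (x + a)) = ∑ b, ov χ w u a b * χ (b * (-x)) := by
  have h1 : ∑ b, ov χ w u a b * χ (b * (-x))
      = ∑ y, (w y * u (y + a)) * ∑ b, χ (b * (y - x)) := by
    simp_rw [ov, Finset.sum_mul, Finset.mul_sum]
    rw [Finset.sum_comm]
    apply Finset.sum_congr rfl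
    intro y _
    apply Finset.sum_congr rfl
    intro b _
    have e1 : χ (b * (y - x)) = χ (b * y) * χ (b * (-x)) := by
      rw [← AddChar.map_add_eq_mul]; congr 1; ring
    rw [e1]; ring
  rw [h1, Finset.sum_eq_single x]
  · rw [sum_chi hχ, if_pos (sub_self x)]; ring
  · intro y _ hy
    rw [sum_chi hχ, if_neg (sub_ne_zero.mpr hy), mul_zero]
  · intro h; exact absurd (mem_univ _) h

/-- correlation of the diagonals -/
theorem corr {χ : AddChar (ZMod p) k} (hχ : χ.IsPrimitive) (w u : ZMod p → k) (a j : ZMod p) :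
    (p : k) * ∑ x, (w x * u (x + a)) * (w (x + j) * u (x + j + (-a)))
      = ∑ b, ov χ w u a b * ov χ w u (-a) (-b) * χ (b * j) := by
  calc (p : k) * ∑ x, (w x * u (x + a)) * (w (x + j) * u (x + j + (-a)))
      = ∑ x, ((p : k) * (w x * u (x + a))) * (w (x + j) * u (x + j + (-a))) := by
        rw [Finset.mul_sum]
        apply Finset.sum_congr rfl
        intro x _
        ring
    _ = ∑ x, (∑ b, ov χ w u a b * χ (b * (-x))) * (w (x + j) * u (x + j + (-a))) := by
        apply Finset.sum_congr rfl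
        intro x _
        rw [inversion hχ]
    _ = ∑ b, ov χ w u a b * χ (b * j) *
          ∑ x, (w (x + j) * u (x + j + (-a))) * χ (-b * (x + j)) := by
        simp_rw [Finset.sum_mul, Finset.mul_sum]
        rw [Finset.sum_comm]
        apply Finset.sum_congr rfl
        intro b _
        apply Finset.sum_congr rfl
        intro x _
        have e1 : χ (b * (-x)) = χ (b * j) * χ (-b * (x + j)) := by
          rw [← AddChar.map_add_eq_mul]; congr 1; ring
        rw [e1]; ring
    _ = ∑ b, ov χ w u a b * ov χ w u (-a) (-b) * χ (b * j) := by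
        apply Finset.sum_congr rfl
        intro b _
        have e1 : ∑ x, (w (x + j) * u (x + j + (-a))) * χ (-b * (x + j)) = ov χ w u (-a) (-b) := by
          rw [ov]
          exact Equiv.sum_comp (Equiv.addRight j) (fun x => w x * u (x + -a) * χ (-b * x))
        rw [e1]; ring

theorem four_terms [CharZero k] {χ : AddChar (ZMod p) k} (hχ : χ.IsPrimitive) {w u : ZMod p → k}
    (hS : Sic χ w u) (a j : ZMod p) (ha : a ≠ 0) :
    ∑ x, (w x * u (x + a)) * (w (x + j) * u (x + j + (-a)))
      = if j = a then ((p : k) + 1)⁻¹ else 0 := by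
  have hp : p.Prime := Fact.out
  have hp0 : (p : k) ≠ 0 := by exact_mod_cast hp.ne_zero
  apply mul_left_cancel₀ hp0
  rw [corr hχ]
  have h1 : ∀ b, ov χ w u a b * ov χ w u (-a) (-b) * χ (b * j)
      = ((p : k) + 1)⁻¹ * χ (b * (j - a)) := by
    intro b
    rw [hS.flat a b (fun h => ha h.1)]
    have e1 : χ (b * (j - a)) = χ (-(a * b)) * χ (b * j) := by
      rw [← AddChar.map_add_eq_mul]; congr 1; ring
    rw [e1]; ring
  simp_rw [h1]
  rw [← Finset.mul_sum, sum_chi hχ]
  by_cases h : j = a
  · rw [if_pos (sub_eq_zero.mpr h), if_pos h]; ring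
  · rw [if_neg (fun h' => h (sub_eq_zero.mp h')), if_neg h, mul_zero, mul_zero]

theorem four_terms_zero [CharZero k] {χ : AddChar (ZMod p) k} (hχ : χ.IsPrimitive)
    {w u : ZMod p → k} (hS : Sic χ w u) (j : ZMod p) :
    ∑ x, (w x * u (x + 0)) * (w (x + j) * u (x + j + 0))
      = if j = 0 then 2 * ((p : k) + 1)⁻¹ else ((p : k) + 1)⁻¹ := by
  have hp : p.Prime := Fact.out
  have hp0 : (p : k) ≠ 0 := by exact_mod_cast hp.ne_zero
  have hp1 : (p : k) + 1 ≠ 0 := by exact_mod_cast Nat.succ_ne_zero p
  apply mul_left_cancel₀ hp0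
  have h0 := corr hχ w u 0 j
  rw [neg_zero] at h0
  rw [h0]
  have h1 : ∀ b, ov χ w u 0 b * ov χ w u 0 (-b) * χ (b * j)
      = ((p : k) + 1)⁻¹ * χ (b * j) + if b = 0 then 1 - ((p : k) + 1)⁻¹ else 0 := by
    intro b
    by_cases hb : b = 0
    · rw [hb, if_pos rfl, neg_zero, hS.zero, zero_mul, AddChar.map_zero_eq_one]; ring
    · have h2 := hS.flat 0 b (fun h => hb h.2)
      rw [neg_zero] at h2
      rw [h2, if_neg hb, zero_mul, neg_zero, AddChar.map_zero_eq_one]; ring
  simp_rw [h1]
  rw [Finset.sum_add_distrib, ← Finset.mul_sum, sum_chi hχ, Finset.sum_ite_eq' univ (0 : ZMod p),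
    if_pos (mem_univ _)]
  by_cases h : j = 0
  · rw [if_pos h, if_pos h]; field_simp; ring
  · rw [if_neg h, if_neg h]; field_simp; ring

end Pool.Agent.H990.SF
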