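import Mathlib

/-!
# Functions with flat autocorrelation and a level structure
-/

set_option autoImplicit false

namespace Pool.Agent.H990.SF

open Finset

variable {p : ℕ} [Fact p.Prime] {k : Type*} [Field k] [CharZero k] {Γ : Type*}

/-- two levels, one of them with more than one element -/
theorem two_level (F : ZMod p → k) (lev : ZMod p → Γ) (q : k) (hq : q ≠ 0)
    (h0 : ∑ x, F x * F x = 2 * q)
    (h1 : ∀ a, a ≠ 0 → ∑ x, F x * F (x + a) = q)
    (h2 : ∀ s s', F s ≠ 0 → F s' ≠ 0 → lev s ≠ lev s' → F s * F s' = q)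
    (h3 : ∀ s s' x, F s ≠ 0 → F s' ≠ 0 → s ≠ s' → lev s = lev s' → F x ≠ 0 →
      F (x + (s' - s)) ≠ 0 → lev x = lev s ∧ lev (x + (s' - s)) = lev s)
    (s0 s1 s' : ZMod p) (hs0 : F s0 ≠ 0) (hs1 : F s1 ≠ 0) (hl : lev s0 ≠ lev s1)
    (hall : ∀ s, F s ≠ 0 → lev s = lev s0 ∨ lev s = lev s1)
    (hs' : F s' ≠ 0) (hss : s' ≠ s0) (hls : lev s' = lev s0) : False := by
  classical
  have hq01 : F s0 * F s1 = q := h2 s0 s1 hs0 hs1 hl
  have hF0 : ∀ s, F s ≠ 0 → lev s = lev s0 → F s = F s0 := by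
    intro s hs hls
    have h4 := h2 s s1 hs hs1 (hls ▸ hl)
    rw [← hq01] at h4
    exact mul_right_cancel₀ hs1 h4
  have hF1 : ∀ s, F s ≠ 0 → lev s = lev s1 → F s = F s1 := by
    intro s hs hls
    have h4 := h2 s0 s hs0 hs (hls ▸ hl)
    rw [← hq01] at h4
    exact mul_left_cancel₀ hs0 h4
  -- the pairs with difference `s' - s0`
  set P := univ.filter (fun x => F x ≠ 0 ∧ F (x + (s' - s0)) ≠ 0) with hP
  have h5 : ∑ x, F x * F (x + (s' - s0)) = (P.card : k) * (F s0 * F s0) := by
    rw [← nsmul_eq_mul, ← Finset.sum_const, hP, Finset.sum_filter]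
    apply Finset.sum_congr rfl
    intro x _
    by_cases hx : F x ≠ 0 ∧ F (x + (s' - s0)) ≠ 0
    · rw [if_pos hx]
      obtain ⟨h6, h7⟩ := h3 s0 s' x hs0 hs' (Ne.symm hss) hls.symm hx.1 hx.2
      rw [hF0 x hx.1 h6, hF0 _ hx.2 h7]
    · rw [if_neg hx]
      by_cases h6 : F x = 0
      · rw [h6, zero_mul]
      · have h7 : F (x + (s' - s0)) = 0 := by
          by_contra h8
          exact hx ⟨h6, h8⟩
        rw [h7, mul_zero]
  rw [h1 _ (sub_ne_zero.mpr hss), ← hq01] at h5
  have h6 : F s1 = (P.card : k) * F s0 := by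
    apply mul_left_cancel₀ hs0
    rw [h5]; ring
  -- the sum of the squares
  set N0 := univ.filter (fun x => F x ≠ 0 ∧ lev x = lev s0) with hN0
  set N1 := univ.filter (fun x => F x ≠ 0 ∧ lev x = lev s1) with hN1
  have h7 : ∑ x, F x * F x = (N0.card : k) * (F s0 * F s0) + (N1.card : k) * (F s1 * F s1) := by
    rw [← nsmul_eq_mul, ← Finset.sum_const, ← nsmul_eq_mul, ← Finset.sum_const, hN0, hN1,
      Finset.sum_filter, Finset.sum_filter, ← Finset.sum_add_distrib]
    apply Finset.sum_congr rfl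
    intro x _
    by_cases hx : F x = 0
    · rw [if_neg (fun h => h.1 hx), if_neg (fun h => h.1 hx), hx]; ring
    · rcases hall x hx with h8 | h8
      · rw [if_pos ⟨hx, h8⟩, if_neg (fun h => hl (h8.symm.trans h.2)), hF0 x hx h8]; ring
      · rw [if_neg (fun h => hl (h.2.symm.trans h8)), if_pos ⟨hx, h8⟩, hF1 x hx h8]; ring
  rw [h0, ← hq01, h6] at h7
  have h8 : (N0.card : k) + (N1.card : k) * (P.card : k) ^ 2 = 2 * (P.card : k) := by
    have h9 : F s0 * F s0 ≠ 0 := mul_ne_zero hs0 hs0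
    apply mul_right_cancel₀ h9
    linear_combination -h7
  have h9 : N0.card + N1.card * P.card ^ 2 = 2 * P.card := by exact_mod_cast h8
  have h10 : 2 ≤ N0.card := by
    rw [show (2 : ℕ) = ({s0, s'} : Finset (ZMod p)).card from
      (Finset.card_pair (Ne.symm hss)).symm]
    apply Finset.card_le_card
    intro x hx
    rw [Finset.mem_insert, Finset.mem_singleton] at hx
    rw [hN0, Finset.mem_filter]
    rcases hx with rfl | rfl
    · exact ⟨mem_univ _, hs0, rfl⟩
    · exact ⟨mem_univ _, hs', hls⟩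
  have h11 : 1 ≤ N1.card := Finset.card_pos.mpr ⟨s1, by
    rw [hN1, Finset.mem_filter]; exact ⟨mem_univ _, hs1, rfl⟩⟩
  have h12 : P.card ^ 2 ≤ N1.card * P.card ^ 2 := Nat.le_mul_of_pos_left _ h11
  have h13 : 2 * (P.card : ℤ) ≤ (P.card : ℤ) ^ 2 + 1 := by nlinarith [sq_nonneg ((P.card : ℤ) - 1)]
  have h14 : 2 * P.card ≤ P.card ^ 2 + 1 := by exact_mod_cast h13
  omega

/-- **Level structures.** -/
theorem levels (hp5 : 5 ≤ p) (F : ZMod p → k) (lev : ZMod p → Γ) (q : k) (hq : q ≠ 0)
    (h0 : ∑ x, F x * F x = 2 * q)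
    (h1 : ∀ a, a ≠ 0 → ∑ x, F x * F (x + a) = q)
    (h2 : ∀ s s', F s ≠ 0 → F s' ≠ 0 → lev s ≠ lev s' → F s * F s' = q)
    (h3 : ∀ s s' x, F s ≠ 0 → F s' ≠ 0 → s ≠ s' → lev s = lev s' → F x ≠ 0 →
      F (x + (s' - s)) ≠ 0 → lev x = lev s ∧ lev (x + (s' - s)) = lev s)
    (h4 : ∃ s s', F s ≠ 0 ∧ F s' ≠ 0 ∧ lev s ≠ lev s') : False := by
  classical
  obtain ⟨s0, s1, hs0, hs1, hl⟩ := h4
  have hq01 : F s0 * F s1 = q := h2 s0 s1 hs0 hs1 hl
  by_cases hA : ∃ t, F t ≠ 0 ∧ lev t ≠ lev s0 ∧ lev t ≠ lev s1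
  · obtain ⟨t, ht, ht0, ht1⟩ := hA
    have e0 := h2 t s0 ht hs0 ht0
    have e1 := h2 t s1 ht hs1 ht1
    have e2 : F s0 = F s1 := mul_left_cancel₀ ht (e0.trans e1.symm)
    have e3 : F t = F s0 := by
      apply mul_right_cancel₀ hs1
      rw [e1, hq01]
    have hsq : F s0 * F s0 = q := by
      have := hq01
      rwa [← e2] at this
    have hall : ∀ s, F s ≠ 0 → F s = F s0 := by
      intro s hs
      by_cases h5 : lev s = lev s0
      · have h6 := h2 s s1 hs hs1 (fun h => hl (h5.symm.trans h))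
        rw [← hq01] at h6
        exact mul_right_cancel₀ hs1 h6
      · have h6 := h2 s s0 hs hs0 h5
        rw [← hsq] at h6
        exact mul_right_cancel₀ hs0 h6
    have h7 : ∑ x, F x * F x = ((univ.filter (fun x => F x ≠ 0)).card : k) * q := by
      rw [← nsmul_eq_mul, ← Finset.sum_const, Finset.sum_filter]
      apply Finset.sum_congr rfl
      intro x _
      by_cases hx : F x = 0
      · rw [if_neg (fun h => h hx), hx, zero_mul]
      · rw [if_pos hx, hall x hx, hsq]
    rw [h0] at h7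
    have h8 : ((univ.filter (fun x => F x ≠ 0)).card : k) = ((2 : ℕ) : k) := by
      apply mul_right_cancel₀ hq
      push_cast
      exact h7.symm
    have h9 : (univ.filter (fun x => F x ≠ 0)).card = 2 := by exact_mod_cast h8
    have h10 : ({s0, s1, t} : Finset (ZMod p)).card ≤ (univ.filter (fun x => F x ≠ 0)).card := by
      apply Finset.card_le_card
      intro x hx
      simp only [Finset.mem_insert, Finset.mem_singleton] at hx
      rw [Finset.mem_filter]
      rcases hx with rfl | rfl | rfl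
      · exact ⟨mem_univ _, hs0⟩
      · exact ⟨mem_univ _, hs1⟩
      · exact ⟨mem_univ _, ht⟩
    have h11 : ({s0, s1, t} : Finset (ZMod p)).card = 3 := by
      apply Finset.card_eq_three.mpr
      exact ⟨s0, s1, t, fun h => hl (h ▸ rfl), fun h => ht0 (h ▸ rfl), fun h => ht1 (h ▸ rfl), rfl⟩
    omega
  · push Not at hA
    have hall : ∀ s, F s ≠ 0 → lev s = lev s0 ∨ lev s = lev s1 := by
      intro s hs
      by_cases h5 : lev s = lev s0
      · exact Or.inl h5
      · exact Or.inr (hA s hs h5)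
    -- a third element
    obtain ⟨a, ha⟩ : ∃ a : ZMod p, a ∉ ({0, s1 - s0, s0 - s1} : Finset (ZMod p)) := by
      by_contra hcon
      push Not at hcon
      have h5 : (univ : Finset (ZMod p)).card ≤ ({0, s1 - s0, s0 - s1} : Finset (ZMod p)).card :=
        Finset.card_le_card (fun x _ => hcon x)
      rw [Finset.card_univ, ZMod.card] at h5
      have h6 := Finset.card_le_three (a := (0 : ZMod p)) (b := s1 - s0) (c := s0 - s1)
      omega
    simp only [Finset.mem_insert, Finset.mem_singleton, not_or] at ha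
    obtain ⟨ha0, ha1, ha2⟩ := ha
    have h5 : ∃ x, F x ≠ 0 ∧ F (x + a) ≠ 0 := by
      by_contra hcon
      push Not at hcon
      apply hq
      rw [← h1 a ha0]
      apply Finset.sum_eq_zero
      intro x _
      by_cases hx : F x = 0
      · rw [hx, zero_mul]
      · rw [hcon x hx, mul_zero]
    obtain ⟨x, hx, hxa⟩ := h5
    have h6 : ∃ t, F t ≠ 0 ∧ t ≠ s0 ∧ t ≠ s1 := by
      by_contra hcon
      push Not at hcon
      have hx' : x = s0 ∨ x = s1 := by
        by_cases h : x = s0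
        · exact Or.inl h
        · exact Or.inr (hcon x hx h)
      have hxa' : x + a = s0 ∨ x + a = s1 := by
        by_cases h : x + a = s0
        · exact Or.inl h
        · exact Or.inr (hcon _ hxa h)
      rcases hx' with h7 | h7 <;> rcases hxa' with h8 | h8
      · exact ha0 (by rw [h7] at h8; linear_combination h8)
      · exact ha1 (by rw [h7] at h8; linear_combination h8)
      · exact ha2 (by rw [h7] at h8; linear_combination h8)
      · exact ha0 (by rw [h7] at h8; linear_combination h8)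
    obtain ⟨t, ht, ht0, ht1⟩ := h6
    rcases hall t ht with h7 | h7
    · exact two_level F lev q hq h0 h1 h2 h3 s0 s1 t hs0 hs1 hl hall ht ht0 h7
    · exact two_level F lev q hq h0 h1 h2 h3 s1 s0 t hs1 hs0 (Ne.symm hl)
        (fun s hs => (hall s hs).symm) ht ht1 h7

end Pool.Agent.H990.SF
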