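import Pool.Agent.H990.SF.Ann
import Pool.Agent.H990.SF.Level

/-!
# Places at which the dimension is a unit

`B` is a valuation ring of a field `L` of characteristic zero with residue field of characteristic
zero.
-/

set_option autoImplicit false
set_option linter.unusedSectionVars false
set_option linter.unusedVariables false

namespace Pool.Agent.H990.SF

open Finset Pool.Agent.H207.WH

theorem eq_of_mul {Γ : Type*} [LinearOrderedCommGroupWithZero Γ] {a b M N : Γ} (ha : a ≤ M)
    (hb : b ≤ N) (h : a * b = M * N) (hM : M * N ≠ 0) : a = M ∧ b = N := by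
  have hM0 : M ≠ 0 := left_ne_zero_of_mul hM
  have hN0 : N ≠ 0 := right_ne_zero_of_mul hM
  constructor
  · by_contra hne
    have hlt := lt_of_le_of_ne ha hne
    have := mul_lt_mul_of_lt_of_le_of_nonneg_of_pos hlt hb zero_le (zero_lt_iff.mpr hN0)
    rw [h] at this
    exact lt_irrefl _ this
  · by_contra hne
    have hlt := lt_of_le_of_ne hb hne
    have := mul_lt_mul_of_le_of_lt_of_nonneg_of_pos ha hlt zero_le (zero_lt_iff.mpr hM0)
    rw [h] at this
    exact lt_irrefl _ this

variable {L : Type*} [Field L] [CharZero L] (B : ValuationSubring L) {p : ℕ} [Fact p.Prime]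

/-- the residue field has characteristic zero -/
def ResZero : Prop := ∀ n : ℕ, n ≠ 0 → B.valuation (n : L) = 1

variable {B}

omit [CharZero L] in
theorem ResZero.charZero (hB : ResZero B) : CharZero (IsLocalRing.ResidueField B) := by
  apply charZero_of_inj_zero
  intro n hn
  by_contra h0
  rw [← rs_nat B] at hn
  exact (rs_ne_zero_val B (nat_mem B n)).mpr (hB n h0) hn

omit [CharZero L] in
theorem ResZero.vp (hB : ResZero B) (q : ℕ) [Fact q.Prime] : B.valuation (q : L) = 1 :=
  hB q (Fact.out : q.Prime).ne_zero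

omit [CharZero L] in
theorem ResZero.p1 (hB : ResZero B) (q : ℕ) : B.valuation ((q : L) + 1)⁻¹ = 1 := by
  have h := hB (q + 1) (Nat.succ_ne_zero q)
  push_cast at h
  rw [map_inv₀, h, inv_one]

variable (B)

/-- the reduction of an additive character -/
noncomputable def resχ (χ : AddChar (ZMod p) L) : AddChar (ZMod p) (IsLocalRing.ResidueField B) where
  toFun t := rs B (χ t)
  map_zero_eq_one' := by rw [AddChar.map_zero_eq_one, rs_one]
  map_add_eq_mul' a b := by
    rw [AddChar.map_add_eq_mul, rs_mul B (chi_mem B χ _) (chi_mem B χ _)]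

variable {B}

theorem resχ_prim (hB : ResZero B) {χ : AddChar (ZMod p) L} (hχ : χ.IsPrimitive) :
    (resχ B χ).IsPrimitive := by
  have := hB.charZero
  have hp : p.Prime := Fact.out
  intro a ha h
  have h1 : ∀ x, rs B (χ (x * a)) = 1 := by
    intro x
    have h2 := DFunLike.congr_fun h x
    rw [AddChar.mulShift_apply, AddChar.one_apply, mul_comm] at h2
    exact h2
  have h2 : rs B (∑ x, χ (x * a)) = 0 := by
    rw [sum_chi hχ, if_neg ha, rs_zero]
  rw [rs_sum B _ _ (fun x _ => chi_mem B χ _)] at h2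
  simp_rw [h1] at h2
  rw [Finset.sum_const, Finset.card_univ, ZMod.card, nsmul_eq_mul, mul_one] at h2
  exact hp.ne_zero (by exact_mod_cast h2)

open Classical in
/-- the lemma on annihilators, for functions with values in a valued field -/
theorem ann_val (hB : ResZero B) {χ : AddChar (ZMod p) L} (hχ : χ.IsPrimitive) (f g : ZMod p → L)
    (M N : B.ValueGroup) (hM : ∀ x, B.valuation (f x) ≤ M) (hN : ∀ x, B.valuation (g x) ≤ N)
    (hf : ∃ x, B.valuation (f x) = M) (hg : ∃ x, B.valuation (g x) = N) (hMN : M * N ≠ 0)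
    (h : ∀ j, B.valuation (∑ x, f x * g (x + j)) < M * N) :
    p + 2 ≤ (univ.filter (fun x => B.valuation (f x) = M)).card +
      (univ.filter (fun x => B.valuation (g x) = N)).card := by
  have := hB.charZero
  have hM0 : M ≠ 0 := left_ne_zero_of_mul hMN
  have hN0 : N ≠ 0 := right_ne_zero_of_mul hMN
  obtain ⟨x1, hx1⟩ := hf
  obtain ⟨y1, hy1⟩ := hg
  set c := f x1 with hc
  set c' := g y1 with hc'
  have hc0 : c ≠ 0 := by intro h0; rw [h0, map_zero] at hx1; exact hM0 hx1.symm
  have hc0' : c' ≠ 0 := by intro h0; rw [h0, map_zero] at hy1; exact hN0 hy1.symm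
  have vf : ∀ x, B.valuation (f x / c) ≤ 1 := by
    intro x
    rw [map_div₀, hx1]
    exact div_le_one_of_le₀ (hM x) zero_le
  have vg : ∀ x, B.valuation (g x / c') ≤ 1 := by
    intro x
    rw [map_div₀, hy1]
    exact div_le_one_of_le₀ (hN x) zero_le
  have mf : ∀ x, f x / c ∈ B := fun x => (B.valuation_le_one_iff _).mp (vf x)
  have mg : ∀ x, g x / c' ∈ B := fun x => (B.valuation_le_one_iff _).mp (vg x)
  have ef : ∀ x, rs B (f x / c) ≠ 0 ↔ B.valuation (f x) = M := by
    intro x
    rw [rs_ne_zero_val B (mf x), map_div₀, hx1, div_eq_one_iff_eq hM0]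
  have eg : ∀ x, rs B (g x / c') ≠ 0 ↔ B.valuation (g x) = N := by
    intro x
    rw [rs_ne_zero_val B (mg x), map_div₀, hy1, div_eq_one_iff_eq hN0]
  have key := ann (resχ_prim hB hχ) (fun x => rs B (f x / c)) (fun x => rs B (g x / c'))
    ⟨x1, (ef x1).mpr hx1⟩ ⟨y1, (eg y1).mpr hy1⟩ (by
      intro j
      have h1 : ∀ x, rs B (f x / c) * rs B (g (x + j) / c')
          = rs B ((f x * g (x + j)) / (c * c')) := by
        intro x
        rw [← rs_mul B (mf x) (mg _)]
        congr 1
        field_simp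
      simp_rw [h1]
      rw [← rs_sum B _ _ (fun x _ => by
        have := B.mul_mem _ _ (mf x) (mg (x + j))
        rwa [div_mul_div_comm] at this), ← Finset.sum_div]
      have h2 : B.valuation ((∑ x, f x * g (x + j)) / (c * c')) < 1 := by
        rw [map_div₀, map_mul, hx1, hy1, div_lt_one₀ (zero_lt_iff.mpr hMN)]
        exact h j
      rw [rs_eq_zero_val B ((B.valuation_le_one_iff _).mp h2.le)]
      exact h2)
  simp only [ef, eg] at key
  exact key

variable (B)

/-- the maximal value on a diagonal -/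
noncomputable def Nf (w u : ZMod p → L) (a : ZMod p) : B.ValueGroup :=
  univ.sup' ⟨0, mem_univ _⟩ (fun x => B.valuation (w x * u (x + a)))

omit [CharZero L] in
theorem N_le (w u : ZMod p → L) (a x : ZMod p) : B.valuation (w x * u (x + a)) ≤ Nf B w u a :=
  Finset.le_sup' (fun x => B.valuation (w x * u (x + a))) (mem_univ x)

omit [CharZero L] in
theorem N_att (w u : ZMod p → L) (a : ZMod p) :
    ∃ x, B.valuation (w x * u (x + a)) = Nf B w u a := by
  obtain ⟨x, _, hx⟩ := Finset.exists_mem_eq_sup' (⟨0, mem_univ _⟩ : (univ : Finset (ZMod p)).Nonempty)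
    (fun x => B.valuation (w x * u (x + a)))
  exact ⟨x, hx.symm⟩

omit [CharZero L] in
theorem ov_le (χ : AddChar (ZMod p) L) (w u : ZMod p → L) (a b : ZMod p) :
    B.valuation (ov χ w u a b) ≤ Nf B w u a := by
  rw [ov]
  apply Valuation.map_sum_le
  intro x _
  rw [map_mul, chi_val B χ, mul_one]
  exact N_le B w u a x

variable {B}

section main

variable {χ : AddChar (ZMod p) L} {w u : ZMod p → L}

theorem flatV (hB : ResZero B) (hS : Sic χ w u) (a b : ZMod p) (h : ¬ (a = 0 ∧ b = 0)) :
    B.valuation (ov χ w u a b) * B.valuation (ov χ w u (-a) (-b)) = 1 := by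
  rw [← map_mul, hS.flat a b h, map_mul, chi_val B χ, hB.p1 p, one_mul]

theorem ov_ne (hS : Sic χ w u) (a b : ZMod p) : ov χ w u a b ≠ 0 := by
  by_cases h : a = 0 ∧ b = 0
  · rw [h.1, h.2, hS.zero]; exact one_ne_zero
  · intro h0
    have h1 := hS.flat a b h
    rw [h0, zero_mul] at h1
    have h2 : χ (-(a * b)) ≠ 0 := by
      intro h3
      have := chi_pow χ (-(a * b))
      rw [h3, zero_pow (Fact.out : p.Prime).ne_zero] at this
      exact zero_ne_one this
    have h3 : ((p : L) + 1)⁻¹ ≠ 0 := inv_ne_zero (by exact_mod_cast Nat.succ_ne_zero p)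
    exact mul_ne_zero h2 h3 h1.symm

theorem N_ne (hS : Sic χ w u) (a : ZMod p) : Nf B w u a ≠ 0 := by
  intro h
  have h1 := ov_le B χ w u a 0
  rw [h] at h1
  have h2 := (map_eq_zero B.valuation).mp (le_antisymm h1 zero_le)
  exact ov_ne hS a 0 h2

theorem ov_att (hB : ResZero B) (hχ : χ.IsPrimitive) (hS : Sic χ w u) (a : ZMod p) :
    ∃ b, B.valuation (ov χ w u a b) = Nf B w u a := by
  by_contra hcon
  push Not at hcon
  obtain ⟨x, hx⟩ := N_att B w u a
  have h1 : B.valuation ((p : L) * (w x * u (x + a))) = Nf B w u a := by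
    rw [map_mul, hB.vp p, one_mul, hx]
  rw [inversion hχ] at h1
  have h2 : B.valuation (∑ b, ov χ w u a b * χ (b * (-x))) < Nf B w u a := by
    apply Valuation.map_sum_lt _ (N_ne hS a)
    intro b _
    rw [map_mul, chi_val B χ, mul_one]
    exact lt_of_le_of_ne (ov_le B χ w u a b) (hcon b)
  rw [h1] at h2
  exact lt_irrefl _ h2

theorem N_ge (hB : ResZero B) (hχ : χ.IsPrimitive) (hS : Sic χ w u) (a : ZMod p) :
    1 ≤ Nf B w u a * Nf B w u (-a) := by
  by_cases ha : a = 0
  · have h1 := ov_le B χ w u 0 0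
    rw [hS.zero, map_one] at h1
    rw [ha, neg_zero]
    exact one_le_mul_of_one_le_of_one_le h1 h1
  · obtain ⟨b, hb⟩ := ov_att hB hχ hS a
    rw [← flatV hB hS a b (fun h => ha h.1), hb]
    exact mul_le_mul_of_nonneg_left (ov_le B χ w u (-a) (-b)) zero_le

theorem prod_zero (w u : ZMod p → L) (a x : ZMod p) :
    (w x * u (x + 0)) * (w (x + a) * u (x + a + 0))
      = (w x * u (x + a)) * (w (x + a) * u (x + a + (-a))) := by
  rw [add_zero, add_zero, add_neg_cancel_right]; ring

theorem prod_swap (w u : ZMod p → L) (a x y : ZMod p) :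
    (w x * u (x + a)) * (w y * u (y + (-a)))
      = (w x * u (x + (y - a - x))) * (w y * u (y + (-(y - a - x)))) := by
  have e1 : x + (y - a - x) = y + (-a) := by ring
  have e2 : y + (-(y - a - x)) = x + a := by ring
  rw [e1, e2]; ring

/-- the main diagonal is bounded -/
theorem N_zero_le (hB : ResZero B) (hχ : χ.IsPrimitive) (hS : Sic χ w u) (a0 : ZMod p)
    (h1 : Nf B w u a0 * Nf B w u (-a0) = 1) : Nf B w u 0 ≤ 1 := by
  classical
  by_contra hcon
  push Not at hcon
  have h2 := ann_val hB hχ (fun x => w x * u (x + 0)) (fun x => w x * u (x + 0))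
    (Nf B w u 0) (Nf B w u 0) (N_le B w u 0) (N_le B w u 0) (N_att B w u 0) (N_att B w u 0)
    (mul_ne_zero (N_ne hS 0) (N_ne hS 0)) (by
      intro j
      have h3 := four_terms_zero hχ hS j
      show B.valuation (∑ x, (w x * u (x + 0)) * (w (x + j) * u (x + j + 0))) < _
      rw [h3]
      have h4 : B.valuation (if j = 0 then 2 * ((p : L) + 1)⁻¹ else ((p : L) + 1)⁻¹) = 1 := by
        split_ifs
        · have h5 := hB 2 two_ne_zero
          push_cast at h5
          rw [map_mul, h5, hB.p1 p, one_mul]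
        · exact hB.p1 p
      rw [h4]
      exact one_lt_mul_of_lt_of_le hcon hcon.le)
  have h2' := lt_of_lt_of_le (by omega : p < p + 2) h2
  obtain ⟨x, hx, hxa⟩ := pigeon _ _ h2' a0
  rw [Finset.mem_filter] at hx hxa
  have h3 : B.valuation ((w x * u (x + 0)) * (w (x + a0) * u (x + a0 + 0)))
      = Nf B w u 0 * Nf B w u 0 := by
    rw [map_mul, hx.2, hxa.2]
  rw [prod_zero, map_mul] at h3
  have h4 : B.valuation (w x * u (x + a0)) * B.valuation (w (x + a0) * u (x + a0 + -a0))
      ≤ Nf B w u a0 * Nf B w u (-a0) :=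
    mul_le_mul_of_nonneg' (N_le B w u a0 x) (N_le B w u (-a0) (x + a0)) zero_le zero_le
  rw [h1, h3] at h4
  exact absurd h4 (not_le.mpr (one_lt_mul_of_lt_of_le hcon hcon.le))

theorem N_mul (hB : ResZero B) (hχ : χ.IsPrimitive) (hS : Sic χ w u)
    (h0 : Nf B w u 0 ≤ 1) (a : ZMod p) : Nf B w u a * Nf B w u (-a) = 1 := by
  classical
  apply le_antisymm _ (N_ge hB hχ hS a)
  by_cases ha : a = 0
  · rw [ha, neg_zero]
    exact mul_le_one' h0 h0
  by_contra hcon
  push Not at hcon
  have h2 := ann_val hB hχ (fun x => w x * u (x + a)) (fun x => w x * u (x + (-a)))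
    (Nf B w u a) (Nf B w u (-a)) (N_le B w u a) (N_le B w u (-a)) (N_att B w u a)
    (N_att B w u (-a)) (mul_ne_zero (N_ne hS a) (N_ne hS (-a))) (by
      intro j
      have h3 := four_terms hχ hS a j ha
      show B.valuation (∑ x, (w x * u (x + a)) * (w (x + j) * u (x + j + (-a)))) < _
      rw [h3]
      apply lt_of_le_of_lt _ hcon
      split_ifs
      · exact (hB.p1 p).le
      · rw [map_zero]; exact zero_le)
  have h2' := lt_of_lt_of_le (by omega : p < p + 2) h2
  obtain ⟨x, hx, hxa⟩ := pigeon _ _ h2' a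
  rw [Finset.mem_filter] at hx hxa
  have h3 : B.valuation ((w x * u (x + 0)) * (w (x + a) * u (x + a + 0)))
      = Nf B w u a * Nf B w u (-a) := by
    rw [prod_zero, map_mul, hx.2, hxa.2]
  have h4 : B.valuation ((w x * u (x + 0)) * (w (x + a) * u (x + a + 0))) ≤ 1 := by
    rw [map_mul]
    exact mul_le_one' ((N_le B w u 0 x).trans h0) ((N_le B w u 0 (x + a)).trans h0)
  rw [h3] at h4
  exact absurd h4 (not_le.mpr hcon)

/-- top entries on opposite diagonals give top entries on other diagonals -/
theorem top_swap (hN : ∀ a, Nf B w u a * Nf B w u (-a) = 1) (a x y : ZMod p)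
    (hx : B.valuation (w x * u (x + a)) = Nf B w u a)
    (hy : B.valuation (w y * u (y + (-a))) = Nf B w u (-a)) :
    B.valuation (w x * u (x + (y - a - x))) = Nf B w u (y - a - x) ∧
      B.valuation (w y * u (y + (-(y - a - x)))) = Nf B w u (-(y - a - x)) := by
  apply eq_of_mul (N_le B w u _ x) (N_le B w u _ y)
  · rw [← map_mul, ← prod_swap, map_mul, hx, hy, hN, hN]
  · rw [hN]; exact one_ne_zero

/-- half of the level argument -/
theorem level_le (hB : ResZero B) (hχ : χ.IsPrimitive) (hS : Sic χ w u)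
    (hN : ∀ a, Nf B w u a * Nf B w u (-a) = 1) (hN0 : Nf B w u 0 = 1) (a x y : ZMod p)
    (ha : a ≠ 0) (hx : B.valuation (w x * u (x + a)) = Nf B w u a)
    (hy : B.valuation (w y * u (y + (-a))) = Nf B w u (-a)) :
    B.valuation (w y) * B.valuation (u (x + a)) ≤ 1 := by
  classical
  set E := univ.filter (fun x => B.valuation (w x * u (x + a)) = Nf B w u a) with hE
  set E' := univ.filter (fun y => B.valuation (w y * u (y + (-a))) = Nf B w u (-a)) with hE'
  have hxE : x ∈ E := by rw [hE, Finset.mem_filter]; exact ⟨mem_univ _, hx⟩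
  have hyE : y ∈ E' := by rw [hE', Finset.mem_filter]; exact ⟨mem_univ _, hy⟩
  obtain ⟨xs, hxs, hxm⟩ := Finset.exists_max_image E (fun x => B.valuation (u (x + a))) ⟨x, hxE⟩
  obtain ⟨ys, hys, hym⟩ := Finset.exists_max_image E' (fun y => B.valuation (w y)) ⟨y, hyE⟩
  have hne : Nf B w u a * Nf B w u (-a) ≠ 0 := by rw [hN]; exact one_ne_zero
  suffices hkey : B.valuation (w ys) * B.valuation (u (xs + a)) = 1 by
    rw [← hkey]
    exact mul_le_mul_of_nonneg' (hym y hyE) (hxm x hxE) zero_le zero_le
  -- it suffices to find a common element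
  suffices hs : ∃ s, s ∈ E' ∧ B.valuation (w s) = B.valuation (w ys) ∧ s - a ∈ E ∧
      B.valuation (u s) = B.valuation (u (xs + a)) by
    obtain ⟨s, hs1, hs2, hs3, hs4⟩ := hs
    rw [hE', Finset.mem_filter] at hs1
    rw [hE, Finset.mem_filter] at hs3
    have h1 := (top_swap hN a (s - a) s hs3.2 hs1.2).2
    have e1 : s - a - (s - a) = 0 := by ring
    rw [e1, neg_zero, add_zero, hN0, map_mul, hs2, hs4] at h1
    exact h1
  by_contra hcon
  push Not at hcon
  let f : ZMod p → L := fun x => if x ∈ E ∧ B.valuation (u (x + a)) = B.valuation (u (xs + a))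
    then w x * u (x + a) else 0
  let g : ZMod p → L := fun y => if y ∈ E' ∧ B.valuation (w y) = B.valuation (w ys)
    then w y * u (y + (-a)) else 0
  have hf1 : ∀ x, B.valuation (f x) ≤ Nf B w u a := by
    intro x
    show B.valuation (if _ then _ else _) ≤ _
    split_ifs
    · exact N_le B w u a x
    · rw [map_zero]; exact zero_le
  have hg1 : ∀ x, B.valuation (g x) ≤ Nf B w u (-a) := by
    intro x
    show B.valuation (if _ then _ else _) ≤ _
    split_ifs
    · exact N_le B w u (-a) x
    · rw [map_zero]; exact zero_le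
  have hf2 : ∀ x, B.valuation (f x) = Nf B w u a →
      x ∈ E ∧ B.valuation (u (x + a)) = B.valuation (u (xs + a)) := by
    intro x hx
    by_contra h
    have h1 : f x = 0 := if_neg h
    rw [h1, map_zero] at hx
    exact left_ne_zero_of_mul hne hx.symm
  have hg2 : ∀ x, B.valuation (g x) = Nf B w u (-a) →
      x ∈ E' ∧ B.valuation (w x) = B.valuation (w ys) := by
    intro x hx
    by_contra h
    have h1 : g x = 0 := if_neg h
    rw [h1, map_zero] at hx
    exact right_ne_zero_of_mul hne hx.symm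
  have hf3 : ∃ x, B.valuation (f x) = Nf B w u a := by
    refine ⟨xs, ?_⟩
    have h1 : f xs = w xs * u (xs + a) := if_pos ⟨hxs, rfl⟩
    rw [h1]
    rw [hE, Finset.mem_filter] at hxs
    exact hxs.2
  have hg3 : ∃ x, B.valuation (g x) = Nf B w u (-a) := by
    refine ⟨ys, ?_⟩
    have h1 : g ys = w ys * u (ys + (-a)) := if_pos ⟨hys, rfl⟩
    rw [h1]
    rw [hE', Finset.mem_filter] at hys
    exact hys.2
  have hcorr : ∀ j, B.valuation (∑ x, f x * g (x + j)) < Nf B w u a * Nf B w u (-a) := by
    intro j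
    by_cases hpair : ∃ x1, (x1 ∈ E ∧ B.valuation (u (x1 + a)) = B.valuation (u (xs + a))) ∧
        (x1 + j ∈ E' ∧ B.valuation (w (x1 + j)) = B.valuation (w ys))
    · obtain ⟨x1, ⟨h1, h2⟩, h3, h4⟩ := hpair
      have hja : j ≠ a := by
        intro hja
        rw [hja] at h3 h4
        apply hcon (x1 + a) h3 h4
        · rwa [add_sub_cancel_right]
        · exact h2
      have h5 := four_terms hχ hS a j ha
      rw [if_neg hja] at h5
      have h6 : ∑ x, f x * g (x + j) = -∑ x, ((w x * u (x + a)) * (w (x + j) * u (x + j + (-a)))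
          - f x * g (x + j)) := by
        rw [Finset.sum_sub_distrib, h5]; ring
      rw [h6, Valuation.map_neg]
      apply Valuation.map_sum_lt _ hne
      intro x _
      by_cases hx2 : (x ∈ E ∧ B.valuation (u (x + a)) = B.valuation (u (xs + a))) ∧
        (x + j ∈ E' ∧ B.valuation (w (x + j)) = B.valuation (w ys))
      · have e1 : f x = w x * u (x + a) := if_pos hx2.1
        have e2 : g (x + j) = w (x + j) * u (x + j + (-a)) := if_pos hx2.2
        rw [e1, e2, sub_self, map_zero]
        exact zero_lt_iff.mpr hne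
      · have e1 : f x * g (x + j) = 0 := by
          by_cases hx3 : x ∈ E ∧ B.valuation (u (x + a)) = B.valuation (u (xs + a))
          · have e2 : g (x + j) = 0 := if_neg (fun h => hx2 ⟨hx3, h⟩)
            rw [e2, mul_zero]
          · have e2 : f x = 0 := if_neg hx3
            rw [e2, zero_mul]
        rw [e1, sub_zero]
        apply lt_of_le_of_ne
        · rw [map_mul]
          exact mul_le_mul_of_nonneg' (N_le B w u a x) (N_le B w u (-a) (x + j)) zero_le zero_le
        · intro heq
          rw [map_mul] at heq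
          obtain ⟨h7, h8⟩ := eq_of_mul (N_le B w u a x) (N_le B w u (-a) (x + j)) heq hne
          apply hx2
          have hxE2 : x ∈ E := by rw [hE, Finset.mem_filter]; exact ⟨mem_univ _, h7⟩
          have hyE2 : x + j ∈ E' := by rw [hE', Finset.mem_filter]; exact ⟨mem_univ _, h8⟩
          have h9 := (top_swap hN a x (x + j) h7 h8).2
          have h10 : B.valuation (w x1 * u (x1 + a)) = Nf B w u a := by
            rw [hE, Finset.mem_filter] at h1; exact h1.2
          have h11 : B.valuation (w (x1 + j) * u (x1 + j + (-a))) = Nf B w u (-a) := by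
            rw [hE', Finset.mem_filter] at h3; exact h3.2
          have h12 := (top_swap hN a x1 (x1 + j) h10 h11).2
          have e3 : x + j - a - x = x1 + j - a - x1 := by ring
          rw [e3, ← h12, map_mul, map_mul] at h9
          have e4 : x + j + (-(x1 + j - a - x1)) = x + a := by ring
          have e5 : x1 + j + (-(x1 + j - a - x1)) = x1 + a := by ring
          rw [e4, e5, h4, h2] at h9
          have h13 : B.valuation (w ys) * B.valuation (u (xs + a)) ≠ 0 := by
            rw [← h4, ← h2, ← map_mul]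
            intro h14
            rw [map_mul, e5.symm, ← map_mul, h12] at h14
            exact N_ne hS _ h14
          obtain ⟨h15, h16⟩ := eq_of_mul (hym _ hyE2) (hxm _ hxE2) h9 h13
          exact ⟨⟨hxE2, h16⟩, hyE2, h15⟩
    · push Not at hpair
      have h1 : ∑ x, f x * g (x + j) = 0 := by
        apply Finset.sum_eq_zero
        intro x _
        by_cases hx3 : x ∈ E ∧ B.valuation (u (x + a)) = B.valuation (u (xs + a))
        · have e2 : g (x + j) = 0 := if_neg (fun h => hpair x hx3 h.1 h.2)
          rw [e2, mul_zero]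
        · have e2 : f x = 0 := if_neg hx3
          rw [e2, zero_mul]
      rw [h1, map_zero]
      exact zero_lt_iff.mpr hne
  have h2 := ann_val hB hχ f g _ _ hf1 hg1 hf3 hg3 hne hcorr
  have h2' := lt_of_lt_of_le (by omega : p < p + 2) h2
  obtain ⟨z, hz, hza⟩ := pigeon _ _ h2' a
  rw [Finset.mem_filter] at hz hza
  obtain ⟨h3, h4⟩ := hf2 z hz.2
  obtain ⟨h5, h6⟩ := hg2 (z + a) hza.2
  exact hcon (z + a) h5 h6 (by rwa [add_sub_cancel_right]) h4

/-- **Levels.** -/
theorem level_eq (hB : ResZero B) (hχ : χ.IsPrimitive) (hS : Sic χ w u)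
    (hN : ∀ a, Nf B w u a * Nf B w u (-a) = 1) (hN0 : Nf B w u 0 = 1) (a x y : ZMod p)
    (ha : a ≠ 0) (hx : B.valuation (w x * u (x + a)) = Nf B w u a)
    (hy : B.valuation (w y * u (y + (-a))) = Nf B w u (-a)) :
    B.valuation (w y) * B.valuation (u (x + a)) = 1 ∧
      B.valuation (w x) * B.valuation (u (y + (-a))) = 1 := by
  have h1 := level_le hB hχ hS hN hN0 a x y ha hx hy
  have h2 := level_le hB hχ hS hN hN0 (-a) y x (neg_ne_zero.mpr ha) hy (by rwa [neg_neg])
  have h3 : B.valuation (w y) * B.valuation (u (x + a)) *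
      (B.valuation (w x) * B.valuation (u (y + (-a)))) = 1 * 1 := by
    rw [one_mul, ← hN a, ← hx, ← hy, map_mul, map_mul]
    ac_rfl
  exact eq_of_mul h1 h2 h3 (by rw [one_mul]; exact one_ne_zero)

/-- only the diagonals of value one have more than one top entry -/
theorem single (hB : ResZero B) (hχ : χ.IsPrimitive) (hS : Sic χ w u)
    (hN : ∀ a, Nf B w u a * Nf B w u (-a) = 1) (hN0 : Nf B w u 0 = 1) (a x y : ZMod p)
    (ha : a ≠ 0) (hx : B.valuation (w x * u (x + a)) = Nf B w u a)
    (hy : B.valuation (w y * u (y + (-a))) = Nf B w u (-a)) (hxy : y ≠ x + a) :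
    Nf B w u a = 1 := by
  obtain ⟨h1, h2⟩ := top_swap hN a x y hx hy
  have hd : y - a - x ≠ 0 := fun h => hxy (by linear_combination h)
  have h3 := (level_eq hB hχ hS hN hN0 (y - a - x) x y hd h1 h2).1
  have e1 : x + (y - a - x) = y + (-a) := by ring
  rw [e1, ← map_mul, hy] at h3
  have h4 := hN a
  rwa [h3, mul_one] at h4

/-- **The coarse theorem.** -/
theorem coarse (hp5 : 5 ≤ p) (hB : ResZero B) (hχ : χ.IsPrimitive) (hS : Sic χ w u) (a0 : ZMod p)
    (ha0 : a0 ≠ 0) (hc : ∀ b b', B.valuation (ov χ w u a0 b) = B.valuation (ov χ w u a0 b')) :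
    B.valuation (ov χ w u a0 0) = 1 := by
  have := hB.charZero
  have hp : p.Prime := Fact.out
  -- the good diagonal
  obtain ⟨b1, hb1⟩ := ov_att hB hχ hS a0
  obtain ⟨b2, hb2⟩ := ov_att hB hχ hS (-a0)
  have hgood : Nf B w u a0 * Nf B w u (-a0) = 1 := by
    rw [← hb1, ← hb2, hc b1 (-b2)]
    have := flatV hB hS a0 (-b2) (fun h => ha0 h.1)
    rwa [neg_neg] at this
  have hN0' := N_zero_le hB hχ hS a0 hgood
  have hN := N_mul hB hχ hS hN0'
  have hN0 : Nf B w u 0 = 1 := by
    apply le_antisymm hN0'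
    have := ov_le B χ w u 0 0
    rwa [hS.zero, map_one] at this
  by_contra hne
  have hNa : Nf B w u a0 ≠ 1 := by rw [← hb1, hc b1 0]; exact hne
  have hmem : ∀ x, w x * u (x + 0) ∈ B := by
    intro x
    rw [← B.valuation_le_one_iff]
    exact (N_le B w u 0 x).trans hN0'
  have hF : ∀ x, rs B (w x * u (x + 0)) ≠ 0 ↔ B.valuation (w x * u (x + 0)) = 1 :=
    fun x => rs_ne_zero_val B (hmem x)
  -- nonzero entries of the main diagonal are top entries
  have htop : ∀ s a, rs B (w s * u (s + 0)) ≠ 0 → rs B (w (s + a) * u (s + a + 0)) ≠ 0 →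
      B.valuation (w s * u (s + a)) = Nf B w u a ∧
        B.valuation (w (s + a) * u (s + a + (-a))) = Nf B w u (-a) := by
    intro s a h1 h2
    rw [hF] at h1 h2
    apply eq_of_mul (N_le B w u _ s) (N_le B w u _ (s + a))
    · rw [← map_mul, ← prod_zero, map_mul, h1, h2, hN, one_mul]
    · rw [hN]; exact one_ne_zero
  have hsum : ∀ j, ∑ x, rs B (w x * u (x + 0)) * rs B (w (x + j) * u (x + j + 0))
      = rs B (∑ x, (w x * u (x + 0)) * (w (x + j) * u (x + j + 0))) := by
    intro j
    rw [rs_sum B _ _ (fun x _ => B.mul_mem _ _ (hmem x) (hmem (x + j)))]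
    apply Finset.sum_congr rfl
    intro x _
    rw [rs_mul B (hmem x) (hmem (x + j))]
  have hp1m : ((p : L) + 1)⁻¹ ∈ B := mem_of_val B (hB.p1 p)
  have hq : rs B ((p : L) + 1)⁻¹ ≠ 0 := (rs_ne_zero_val B hp1m).mpr (hB.p1 p)
  -- level relation
  have hlev : ∀ s s', rs B (w s * u (s + 0)) ≠ 0 → rs B (w s' * u (s' + 0)) ≠ 0 →
      Nf B w u (s' - s) = 1 → B.valuation (w s) = B.valuation (w s') := by
    intro s s' h1 h2 h3
    have e1 : s + (s' - s) = s' := by ring
    have h4 := (htop s (s' - s) h1 (by rwa [e1])).1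
    rw [e1, h3, map_mul] at h4
    rw [hF, add_zero, map_mul] at h2
    have h5 : B.valuation (u s') ≠ 0 := by
      intro h6; rw [h6, mul_zero] at h2; exact zero_ne_one h2
    exact mul_right_cancel₀ h5 (h4.trans h2.symm)
  apply levels (k := IsLocalRing.ResidueField B) hp5 (fun x => rs B (w x * u (x + 0)))
    (fun x => B.valuation (w x)) (rs B ((p : L) + 1)⁻¹) hq
  · have h1 := hsum 0
    simp only [add_zero] at h1 ⊢
    rw [h1]
    have h2 := four_terms_zero hχ hS 0
    simp only [add_zero, if_true] at h2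
    have hm2 : (2 : L) ∈ B := by
      have := nat_mem B 2
      exact_mod_cast this
    rw [h2, rs_mul B hm2 hp1m]
    congr 1
    have := rs_nat B 2
    push_cast at this
    exact this
  · intro a ha
    rw [hsum a, four_terms_zero hχ hS a, if_neg ha]
  · intro s s' h1 h2 h3
    have hss : s' - s ≠ 0 := by
      intro h4
      apply h3
      rw [sub_eq_zero.mp h4]
    have h4 : Nf B w u (s' - s) ≠ 1 := fun h5 => h3 (hlev s s' h1 h2 h5)
    have h5 := hsum (s' - s)
    rw [four_terms_zero hχ hS, if_neg hss] at h5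
    rw [← h5, Finset.sum_eq_single s]
    · have e1 : s + (s' - s) = s' := by ring
      rw [e1]
    · intro x _ hxs
      by_contra h6
      have h7 := left_ne_zero_of_mul h6
      have h8 := right_ne_zero_of_mul h6
      obtain ⟨h9, _⟩ := htop x (s' - s) h7 h8
      obtain ⟨_, h10⟩ := htop s (s' - s) h1 (by
        have e1 : s + (s' - s) = s' := by ring
        rwa [e1])
      apply h4
      apply single hB hχ hS hN hN0 (s' - s) x (s + (s' - s)) hss h9 h10
      intro h11
      apply hxs
      linear_combination -h11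
    · intro h; exact absurd (mem_univ _) h
  · intro s s' x h1 h2 hss h3 h4 h5
    have hd : s' - s ≠ 0 := sub_ne_zero.mpr (Ne.symm hss)
    have e1 : s + (s' - s) = s' := by ring
    obtain ⟨h6, h7⟩ := htop s (s' - s) h1 (by rwa [e1])
    obtain ⟨h8, h9⟩ := htop x (s' - s) h4 h5
    obtain ⟨h10, h11⟩ := level_eq hB hχ hS hN hN0 (s' - s) x (s + (s' - s)) hd h8 h7
    rw [e1] at h10 h11
    have e2 : s' + -(s' - s) = s := by ring
    rw [e2] at h11
    -- levels of `x` and `x + (s' - s)`
    rw [hF, add_zero, map_mul] at h1 h2 h4 h5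
    constructor
    · have h12 : B.valuation (u s) ≠ 0 := by
        intro h13; rw [h13, mul_zero] at h1; exact zero_ne_one h1
      exact mul_right_cancel₀ h12 (h11.trans h1.symm)
    · have h12 : B.valuation (u (x + (s' - s))) ≠ 0 := by
        intro h13; rw [h13, mul_zero] at h5; exact zero_ne_one h5
      show B.valuation (w (x + (s' - s))) = B.valuation (w s)
      have h13 : B.valuation (w s) = B.valuation (w s') := h3
      rw [h13]
      exact mul_right_cancel₀ h12 (h5.trans h10.symm)
  · have h1 := hsum a0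
    rw [four_terms_zero hχ hS, if_neg ha0] at h1
    have h2 : ∃ s, rs B (w s * u (s + 0)) ≠ 0 ∧ rs B (w (s + a0) * u (s + a0 + 0)) ≠ 0 := by
      by_contra hcon
      push Not at hcon
      apply hq
      rw [← h1]
      apply Finset.sum_eq_zero
      intro x _
      by_cases hx : rs B (w x * u (x + 0)) = 0
      · rw [hx, zero_mul]
      · rw [hcon x hx, mul_zero]
    obtain ⟨s, hs, hsa⟩ := h2
    refine ⟨s, s + a0, hs, hsa, ?_⟩
    intro h3
    apply hNa
    have h4 := (htop s a0 hs hsa).1
    rw [hF, add_zero, map_mul] at hsa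
    rw [← h4, map_mul]
    have h5 : B.valuation (w s) = B.valuation (w (s + a0)) := h3
    rw [h5]
    exact hsa

end main

end Pool.Agent.H990.SF
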