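import Pool.Agent.H990.SF.Algebraic

/-!
# The equations of a Weyl-Heisenberg SIC fiducial have finitely many solutions
-/

set_option autoImplicit false
set_option linter.unusedSectionVars false

namespace Pool.Agent.H990.SF

open Finset Pool.Agent.H207.WH

variable {p : ℕ} [Fact p.Prime]

theorem alg_int {L : Type*} [Field L] [CharZero L] {x : L} (h : IsAlgebraic ℚ x) :
    IsAlgebraic ℤ x := (IsFractionRing.isAlgebraic_iff ℤ ℚ L).mpr h

section generic

variable {k : Type*} [Field k] [CharZero k] (χ : AddChar (ZMod p) k)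

/-- the ring of polynomials in the entries of `w` and `u` -/
abbrev RR (p : ℕ) (k : Type*) [Field k] := MvPolynomial (ZMod p ⊕ ZMod p) k

/-- the generic overlap -/
noncomputable def ovR (a b : ZMod p) : RR p k :=
  ∑ x, MvPolynomial.X (Sum.inl x) * MvPolynomial.X (Sum.inr (x + a)) *
    MvPolynomial.C (χ (b * x))

/-- the ideal of the equations -/
noncomputable def II : Ideal (RR p k) :=
  Ideal.span ({ovR χ 0 0 - 1} ∪ {r | ∃ a b : ZMod p, ¬ (a = 0 ∧ b = 0) ∧
    r = ovR χ a b * ovR χ (-a) (-b) - MvPolynomial.C (χ (-(a * b)) * ((p : k) + 1)⁻¹)})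

/-- the composition of an additive character with a homomorphism of fields or rings -/
noncomputable def push {K : Type*} [CommRing K] (φ : RR p k →+* K) : AddChar (ZMod p) K where
  toFun t := φ (MvPolynomial.C (χ t))
  map_zero_eq_one' := by rw [AddChar.map_zero_eq_one, map_one, map_one]
  map_add_eq_mul' a b := by rw [AddChar.map_add_eq_mul, map_mul, map_mul]

theorem push_prim {K : Type*} [Field K] (φ : RR p k →+* K) (hχ : χ.IsPrimitive) :
    (push χ φ).IsPrimitive := by
  intro a ha h
  apply hχ ha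
  ext x
  have h2 := DFunLike.congr_fun h x
  rw [AddChar.mulShift_apply, AddChar.one_apply] at h2 ⊢
  have h3 : (φ.comp MvPolynomial.C) (χ (a * x)) = (φ.comp MvPolynomial.C) 1 := by
    rw [map_one]; exact h2
  exact RingHom.injective _ h3

theorem map_ovR {K : Type*} [CommRing K] (φ : RR p k →+* K) (a b : ZMod p) :
    φ (ovR χ a b) = ∑ x, φ (MvPolynomial.X (Sum.inl x)) * φ (MvPolynomial.X (Sum.inr (x + a))) *
      push χ φ (b * x) := by
  rw [ovR, map_sum]
  apply Finset.sum_congr rfl
  intro x _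
  rw [map_mul, map_mul]
  rfl

/-- a homomorphism to a field which kills the equations makes the products of the entries
algebraic -/
theorem generic_field (hp5 : 5 ≤ p) (hχ : χ.IsPrimitive) {K : Type*} [Field K] [CharZero K]
    (φ : RR p k →+* K) (hφ : ∀ z ∈ II χ, φ z = 0) (x y : ZMod p) :
    ∃ q : Polynomial ℤ, q ≠ 0 ∧ φ (Polynomial.aeval
      (MvPolynomial.X (Sum.inl x) * MvPolynomial.X (Sum.inr y) : RR p k) q) = 0 := by
  have hov : ∀ a b, ov (push χ φ) (fun x => φ (MvPolynomial.X (Sum.inl x)))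
      (fun x => φ (MvPolynomial.X (Sum.inr x))) a b = φ (ovR χ a b) := by
    intro a b
    rw [map_ovR, ov]
  have hS : Sic (push χ φ) (fun x => φ (MvPolynomial.X (Sum.inl x)))
      (fun x => φ (MvPolynomial.X (Sum.inr x))) := by
    constructor
    · rw [hov]
      have h1 : φ (ovR χ 0 0 - 1) = 0 := hφ _ (Ideal.subset_span (Or.inl rfl))
      rw [map_sub, map_one, sub_eq_zero] at h1
      exact h1
    · intro a b hab
      rw [hov, hov]
      have h1 : φ (ovR χ a b * ovR χ (-a) (-b)
          - MvPolynomial.C (χ (-(a * b)) * ((p : k) + 1)⁻¹)) = 0 :=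
        hφ _ (Ideal.subset_span (Or.inr ⟨a, b, hab, rfl⟩))
      rw [map_sub, sub_eq_zero, map_mul] at h1
      rw [h1]
      have h2 : φ (MvPolynomial.C (χ (-(a * b)) * ((p : k) + 1)⁻¹))
          = (φ.comp MvPolynomial.C) (χ (-(a * b))) * ((φ.comp MvPolynomial.C) (p : k) + 1)⁻¹ := by
        rw [← map_one (φ.comp MvPolynomial.C), ← map_add, ← map_inv₀, ← map_mul]
        rfl
      rw [h2, map_natCast]
      rfl
  have halg := alg_int (alg_entry hp5 (push_prim χ φ hχ) hS x y)
  obtain ⟨q, hq, hq0⟩ := halg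
  refine ⟨q, hq, ?_⟩
  rw [Polynomial.aeval_def] at hq0
  rw [Polynomial.aeval_def, Polynomial.hom_eval₂, map_mul]
  have h2 : φ.comp (algebraMap ℤ (RR p k)) = algebraMap ℤ K := RingHom.ext_int _ _
  rw [h2]
  exact hq0

/-- for all pairs of indices the product of the entries is a root of one fixed polynomial -/
theorem generic (hp5 : 5 ≤ p) (hχ : χ.IsPrimitive) (x y : ZMod p) :
    ∃ q : Polynomial ℤ, q ≠ 0 ∧ ∀ w u : ZMod p → k, Sic χ w u →
      Polynomial.aeval (w x * u y) q = 0 := by
  classical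
  set e : RR p k := MvPolynomial.X (Sum.inl x) * MvPolynomial.X (Sum.inr y) with he
  -- it suffices to find `q` with `q(e)` in the ideal
  suffices h : ∃ q : Polynomial ℤ, q ≠ 0 ∧ Polynomial.aeval e q ∈ II χ by
    obtain ⟨q, hq, hqI⟩ := h
    refine ⟨q, hq, fun w u hS => ?_⟩
    set φ : RR p k →+* k := MvPolynomial.eval (Sum.elim w u) with hφ
    have hpush : ∀ t, push χ φ t = χ t := by
      intro t
      show φ (MvPolynomial.C (χ t)) = χ t
      rw [hφ, MvPolynomial.eval_C]
    have hov : ∀ a b, φ (ovR χ a b) = ov χ w u a b := by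
      intro a b
      rw [map_ovR, ov]
      apply Finset.sum_congr rfl
      intro x _
      rw [hpush, hφ, MvPolynomial.eval_X, MvPolynomial.eval_X]
      rfl
    have hle : II χ ≤ RingHom.ker φ := by
      rw [II, Ideal.span_le]
      rintro r (hr | ⟨a, b, hab, rfl⟩)
      · rw [Set.mem_singleton_iff] at hr
        rw [hr, SetLike.mem_coe, RingHom.mem_ker, map_sub, hov, hS.zero, map_one, sub_self]
      · rw [SetLike.mem_coe, RingHom.mem_ker, map_sub, map_mul, hov, hov, hS.flat a b hab]
        have h1 : φ (MvPolynomial.C (χ (-(a * b)) * ((p : k) + 1)⁻¹))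
            = χ (-(a * b)) * ((p : k) + 1)⁻¹ := by rw [hφ, MvPolynomial.eval_C]
        rw [h1, sub_self]
    have h1 := hle hqI
    rw [RingHom.mem_ker, Polynomial.aeval_def, Polynomial.hom_eval₂] at h1
    rw [Polynomial.aeval_def]
    have h2 : φ.comp (algebraMap ℤ (RR p k)) = algebraMap ℤ k := RingHom.ext_int _ _
    have h3 : φ e = w x * u y := by
      rw [he, map_mul, hφ, MvPolynomial.eval_X, MvPolynomial.eval_X]
      rfl
    rw [h2, h3] at h1
    exact h1
  by_contra hcon
  push Not at hcon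
  let S : Submonoid (RR p k) := Submonoid.map (Polynomial.aeval e : Polynomial ℤ →ₐ[ℤ] RR p k)
    (nonZeroDivisors (Polynomial ℤ))
  have hdisj : Disjoint (II χ : Set (RR p k)) (S : Set (RR p k)) := by
    rw [Set.disjoint_left]
    rintro z hz ⟨q, hq, rfl⟩
    exact hcon q (nonZeroDivisors.ne_zero hq) hz
  obtain ⟨P, hP, hIP, hPS⟩ := Ideal.exists_le_prime_disjoint _ _ hdisj
  let K := FractionRing (RR p k ⧸ P)
  let φ : RR p k →+* K := (algebraMap (RR p k ⧸ P) K).comp (Ideal.Quotient.mk P)
  have hker : ∀ z, φ z = 0 ↔ z ∈ P := by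
    intro z
    show algebraMap (RR p k ⧸ P) K (Ideal.Quotient.mk P z) = 0 ↔ _
    rw [map_eq_zero_iff _ (IsFractionRing.injective (RR p k ⧸ P) K), Ideal.Quotient.eq_zero_iff_mem]
  have hK : CharZero K := charZero_of_injective_ringHom (f := φ.comp MvPolynomial.C)
    (RingHom.injective _)
  obtain ⟨q, hq, hq0⟩ := generic_field χ hp5 hχ φ (fun z hz => (hker z).mpr (hIP hz)) x y
  rw [← he, hker] at hq0
  exact (Set.disjoint_left.mp hPS) hq0 ⟨q, mem_nonZeroDivisors_of_ne_zero hq, rfl⟩

/-- **Finiteness.** -/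
theorem finite_pairs (hp5 : 5 ≤ p) (hχ : χ.IsPrimitive) :
    {M : Matrix (ZMod p) (ZMod p) k | ∃ w u : ZMod p → k, Sic χ w u ∧ ∀ x y, M x y = w y * u x}.Finite := by
  classical
  choose q hq0 hq using generic χ hp5 hχ
  have hroot : ∀ x y : ZMod p, {z : k | Polynomial.aeval z (q y x) = 0}.Finite := by
    intro x y
    have h1 : ((q y x).map (algebraMap ℤ k)) ≠ 0 := by
      intro h
      apply hq0 y x
      exact (Polynomial.map_eq_zero_iff (RingHom.injective_int (algebraMap ℤ k))).mp h
    apply (Multiset.finite_toSet ((q y x).map (algebraMap ℤ k)).roots).subset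
    intro z hz
    show z ∈ ((q y x).map (algebraMap ℤ k)).roots
    rw [Polynomial.mem_roots h1, Polynomial.IsRoot, Polynomial.eval_map_algebraMap]
    exact hz
  have h2 : (Set.pi Set.univ (fun x : ZMod p => Set.pi Set.univ
      (fun y : ZMod p => {z : k | Polynomial.aeval z (q y x) = 0}))).Finite :=
    Set.Finite.pi (fun x => Set.Finite.pi (fun y => hroot x y))
  apply h2.subset
  rintro M ⟨w, u, hS, hM⟩
  simp only [Set.mem_pi, Set.mem_univ, true_implies, Set.mem_ofPred_eq]
  intro x y
  rw [hM]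
  exact hq y x w u hS

end generic

end Pool.Agent.H990.SF
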