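import Pool.Agent.H990.SF.Coarse

/-!
# The overlaps are bounded at all places with residue field of characteristic zero
-/

set_option autoImplicit false
set_option linter.unusedSectionVars false
set_option linter.unusedVariables false

namespace Pool.Agent.H990.SF

open Finset Pool.Agent.H207.WH

/-- the composition of a place of `L` with a place of its residue field -/
noncomputable def comp {L : Type*} [Field L] (B : ValuationSubring L)
    (B' : ValuationSubring (IsLocalRing.ResidueField B)) : ValuationSubring L where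
  carrier := {z | z ∈ B ∧ rs B z ∈ B'}
  mul_mem' := by
    rintro a b ⟨ha, ha'⟩ ⟨hb, hb'⟩
    exact ⟨B.mul_mem _ _ ha hb, by rw [rs_mul B ha hb]; exact B'.mul_mem _ _ ha' hb'⟩
  one_mem' := ⟨B.one_mem, by rw [rs_one]; exact B'.one_mem⟩
  add_mem' := by
    rintro a b ⟨ha, ha'⟩ ⟨hb, hb'⟩
    exact ⟨B.add_mem _ _ ha hb, by rw [rs_add B ha hb]; exact B'.add_mem _ _ ha' hb'⟩
  zero_mem' := ⟨B.zero_mem, by rw [rs_zero]; exact B'.zero_mem⟩
  neg_mem' := by
    rintro a ⟨ha, ha'⟩
    refine ⟨B.neg_mem _ ha, ?_⟩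
    have h1 : rs B (-a) = -rs B a := by
      have := rs_add B ha (B.neg_mem _ ha)
      rw [add_neg_cancel, rs_zero] at this
      exact (neg_eq_of_add_eq_zero_right this.symm).symm
    rw [h1]
    exact B'.neg_mem _ ha'
  mem_or_inv_mem' := by
    intro z
    by_cases hz : z = 0
    · left
      show z ∈ B ∧ rs B z ∈ B'
      rw [hz]
      exact ⟨B.zero_mem, by rw [rs_zero]; exact B'.zero_mem⟩
    rcases lt_trichotomy (B.valuation z) 1 with h | h | h
    · left
      have h1 : z ∈ B := (B.valuation_le_one_iff _).mp h.le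
      exact ⟨h1, by rw [(rs_eq_zero_val B h1).mpr h]; exact B'.zero_mem⟩
    · have h1 : z ∈ B := (B.valuation_le_one_iff _).mp h.le
      have h2 : z⁻¹ ∈ B := inv_mem_of_val B h
      rcases B'.mem_or_inv_mem (rs B z) with h3 | h3
      · left; exact ⟨h1, h3⟩
      · right; exact ⟨h2, by rw [rs_inv B h]; exact h3⟩
    · right
      have h1 : B.valuation z⁻¹ < 1 := by
        rw [map_inv₀]
        exact inv_lt_one_of_one_lt₀ h
      have h2 : z⁻¹ ∈ B := (B.valuation_le_one_iff _).mp h1.le
      exact ⟨h2, by rw [(rs_eq_zero_val B h2).mpr h1]; exact B'.zero_mem⟩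

theorem mem_comp {L : Type*} [Field L] {B : ValuationSubring L}
    {B' : ValuationSubring (IsLocalRing.ResidueField B)} {z : L} :
    z ∈ comp B B' ↔ z ∈ B ∧ rs B z ∈ B' := Iff.rfl

theorem exists_comp {L : Type*} [Field L] [CharZero L] {B : ValuationSubring L} (hB : ResZero B)
    (p : ℕ) [Fact p.Prime] :
    ∃ B₁ : ValuationSubring L, (p : L) ∈ B₁.nonunits ∧ ∀ z ∈ B₁, z ∈ B := by
  have := hB.charZero
  obtain ⟨B', hB'⟩ := exists_val_char (IsLocalRing.ResidueField B) p
  refine ⟨comp B B', ?_, fun z hz => hz.1⟩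
  have hp : p.Prime := Fact.out
  have hp0 : (p : L) ≠ 0 := by exact_mod_cast hp.ne_zero
  have hp0' : (p : IsLocalRing.ResidueField B) ≠ 0 := by exact_mod_cast hp.ne_zero
  rw [← inv_inv (p : L), ValuationSubring.inv_mem_nonunits_iff]
  right
  intro h
  have h1 := h.2
  rw [rs_inv B (hB.vp p), rs_nat] at h1
  rw [← inv_inv (p : IsLocalRing.ResidueField B), ValuationSubring.inv_mem_nonunits_iff] at hB'
  rcases hB' with h2 | h2
  · exact hp0' (inv_eq_zero.mp h2)
  · exact h2 h1

variable {L : Type*} [Field L] [CharZero L] {B : ValuationSubring L} {p : ℕ} [Fact p.Prime]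

/-- overlaps after a shear and a Fourier transform -/
theorem rotate {χ : AddChar (ZMod p) L} (hχ : χ.IsPrimitive) (hp2 : p ≠ 2)
    (w u : ZMod p → L) (m : ZMod p) :
    ∃ w' u' : ZMod p → L, ∃ q : ZMod p, 2 * q = m ∧ ∀ a b,
      ov χ w' u' a b = χ (q * b ^ 2 - a * b) * ov χ w u (-b) (a - m * b) := by
  have hp : p.Prime := Fact.out
  have hp0 : (p : L) ≠ 0 := by exact_mod_cast hp.ne_zero
  have h2 : (2 : ZMod p) ≠ 0 := by
    intro h
    have h3 : ((2 : ℕ) : ZMod p) = 0 := by exact_mod_cast h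
    rw [ZMod.natCast_eq_zero_iff] at h3
    exact hp2 ((Nat.prime_dvd_prime_iff_eq hp Nat.prime_two).mp h3)
  obtain ⟨q, hq⟩ : ∃ q : ZMod p, 2 * q = m := ⟨m / 2, by field_simp⟩
  refine ⟨fun y => (p : L)⁻¹ * ∑ x, w x * χ (-(q * x ^ 2)) * χ (-(x * y)),
    fun y => ∑ x, u x * χ (q * x ^ 2) * χ (x * y), q, hq, ?_⟩
  intro a b
  rw [ov]
  calc ∑ y, ((p : L)⁻¹ * ∑ x, w x * χ (-(q * x ^ 2)) * χ (-(x * y))) *
        (∑ x, u x * χ (q * x ^ 2) * χ (x * (y + a))) * χ (b * y)
      = ∑ y, ∑ x, ∑ x', ((p : L)⁻¹ * (w x * u x' * (χ (-(q * x ^ 2)) * χ (q * x' ^ 2) *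
          χ (x' * a)))) * χ (y * (x' - x + b)) := by
        apply Finset.sum_congr rfl
        intro y _
        rw [mul_assoc, mul_assoc, Finset.sum_mul, Finset.mul_sum]
        apply Finset.sum_congr rfl
        intro x _
        rw [Finset.sum_mul, Finset.mul_sum, Finset.mul_sum]
        apply Finset.sum_congr rfl
        intro x' _
        have e1 : χ (x' * a) * χ (y * (x' - x + b)) = χ (-(x * y)) * χ (x' * (y + a)) * χ (b * y) := by
          rw [← AddChar.map_add_eq_mul, ← AddChar.map_add_eq_mul, ← AddChar.map_add_eq_mul]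
          congr 1; ring
        calc _ = (p : L)⁻¹ * (w x * u x') * (χ (-(q * x ^ 2)) * χ (q * x' ^ 2)) *
              (χ (-(x * y)) * χ (x' * (y + a)) * χ (b * y)) := by ring
          _ = _ := by rw [← e1]; ring
    _ = ∑ x, ∑ x', ((p : L)⁻¹ * (w x * u x' * (χ (-(q * x ^ 2)) * χ (q * x' ^ 2) *
          χ (x' * a)))) * ∑ y, χ (y * (x' - x + b)) := by
        rw [Finset.sum_comm]
        apply Finset.sum_congr rfl
        intro x _
        rw [Finset.sum_comm]
        apply Finset.sum_congr rfl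
        intro x' _
        rw [Finset.mul_sum]
    _ = ∑ x, (w x * u (x - b) * (χ (-(q * x ^ 2)) * χ (q * (x - b) ^ 2) * χ ((x - b) * a))) := by
        apply Finset.sum_congr rfl
        intro x _
        rw [Finset.sum_eq_single (x - b)]
        · rw [sum_chi hχ, if_pos (by ring)]
          field_simp
        · intro y _ hy
          rw [sum_chi hχ, if_neg, mul_zero]
          intro h
          apply hy
          linear_combination h
        · intro h; exact absurd (mem_univ _) h
    _ = _ := by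
        rw [ov, Finset.mul_sum]
        apply Finset.sum_congr rfl
        intro x _
        have e1 : χ (-(q * x ^ 2)) * χ (q * (x - b) ^ 2) * χ ((x - b) * a)
            = χ (q * b ^ 2 - a * b) * χ ((a - m * b) * x) := by
          rw [← AddChar.map_add_eq_mul, ← AddChar.map_add_eq_mul, ← AddChar.map_add_eq_mul, ← hq]
          congr 1; ring
        rw [e1, ← sub_eq_add_neg]
        ring

theorem rotate_sic {χ : AddChar (ZMod p) L} (hχ : χ.IsPrimitive) (hp2 : p ≠ 2)
    {w u : ZMod p → L} (hS : Sic χ w u) (m : ZMod p) :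
    ∃ w' u' : ZMod p → L, Sic χ w' u' ∧ ∀ a b, ∃ j,
      ov χ w' u' a b = χ j * ov χ w u (-b) (a - m * b) := by
  obtain ⟨w', u', q, hq, h⟩ := rotate hχ hp2 w u m
  refine ⟨w', u', ⟨?_, ?_⟩, fun a b => ⟨_, h a b⟩⟩
  · rw [h]
    simp only [mul_zero, neg_zero, sub_zero, zero_pow two_ne_zero, AddChar.map_zero_eq_one]
    rw [hS.zero, mul_one]
  · intro a b hab
    rw [h, h]
    have hab' : ¬ (-b = 0 ∧ a - m * b = 0) := by
      rintro ⟨h1, h2⟩
      have h3 : b = 0 := neg_eq_zero.mp h1
      rw [h3, mul_zero, sub_zero] at h2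
      exact hab ⟨h2, h3⟩
    have h1 := hS.flat (-b) (a - m * b) hab'
    have e1 : -(a - m * b) = -a - m * -b := by ring
    rw [e1] at h1
    calc _ = (χ (q * b ^ 2 - a * b) * χ (q * (-b) ^ 2 - -a * -b)) *
          (ov χ w u (-b) (a - m * b) * ov χ w u (- -b) (-a - m * -b)) := by ring
      _ = _ := by
        rw [h1, ← mul_assoc, ← AddChar.map_add_eq_mul, ← AddChar.map_add_eq_mul, ← hq]
        congr 2; ring

theorem val_chi_mul (B : ValuationSubring L) (χ : AddChar (ZMod p) L) (j : ZMod p) (x : L) :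
    B.valuation (χ j * x) = B.valuation x := by
  rw [map_mul, chi_val B χ, one_mul]

/-- **Boundedness.** The overlaps are in all valuation rings with residue field of characteristic
zero. -/
theorem all_mem (hp5 : 5 ≤ p) (hB : ResZero B) {χ : AddChar (ZMod p) L} (hχ : χ.IsPrimitive)
    {w u : ZMod p → L} (hS : Sic χ w u) (a b : ZMod p) : ov χ w u a b ∈ B := by
  have hp : p.Prime := Fact.out
  have hp2 : p ≠ 2 := by omega
  obtain ⟨B₁, hp1, hle⟩ := exists_comp hB p
  obtain ⟨x0, y0, hA0, hmem, v, v', hvv, hinv⟩ := red B₁ hp2 hp1 hχ hS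
  set A0 := ov χ w u x0 y0 with hA0d
  -- all values are at most the value of `A0`
  have hmax : ∀ x y, B.valuation (ov χ w u x y) ≤ B.valuation A0 := by
    intro x y
    have h1 := hle _ (hmem x y)
    rw [← B.valuation_le_one_iff, map_div₀, div_le_one₀] at h1
    · exact h1
    · exact zero_lt_iff.mpr ((map_ne_zero _).mpr hA0)
  rw [← B.valuation_le_one_iff]
  refine (hmax a b).trans ?_
  by_contra hcon
  push Not at hcon
  -- the values on the line through `(x0, y0)`
  have hline : ∀ j : ZMod p, B.valuation (ov χ w u (x0 + j * v) (y0 + j * v')) = B.valuation A0 := by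
    intro j
    have h1 := inv_mul (fun g : ZMod p × ZMod p => rs B₁ (ov χ w u g.1 g.2 / A0)) (v, v')
      (fun g => hinv g.1 g.2) j (x0, y0)
    have h2 : rs B₁ (ov χ w u (x0 + j * v) (y0 + j * v') / A0) = 1 := by
      have h3 : rs B₁ (ov χ w u (x0 + j * v) (y0 + j * v') / A0)
          = rs B₁ (ov χ w u x0 y0 / A0) := h1
      rw [h3, ← hA0d, div_self hA0, rs_one]
    have h3 : B₁.valuation (ov χ w u (x0 + j * v) (y0 + j * v') / A0) = 1 := by
      rw [← rs_ne_zero_val B₁ (hmem _ _), h2]
      exact one_ne_zero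
    have h4 := hle _ (inv_mem_of_val B₁ h3)
    apply le_antisymm (hmax _ _)
    rw [← B.valuation_le_one_iff, inv_div, map_div₀, div_le_one₀] at h4
    · exact h4
    · exact zero_lt_iff.mpr ((map_ne_zero _).mpr (ov_ne hS _ _))
  have h00 : B.valuation (ov χ w u 0 0) = 1 := by rw [hS.zero, map_one]
  by_cases hv : v = 0
  · have hv' : v' ≠ 0 := by
      rcases hvv with h | h
      · exact absurd hv h
      · exact h
    have h1 : ∀ b, B.valuation (ov χ w u x0 b) = B.valuation A0 := by
      intro b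
      rw [← hline ((b - y0) / v'), hv, mul_zero, add_zero, div_mul_cancel₀ _ hv']
      congr 2; ring
    have hx0 : x0 ≠ 0 := by
      intro h
      rw [h] at h1
      rw [← h1 0, h00] at hcon
      exact lt_irrefl _ hcon
    have h2 := coarse hp5 hB hχ hS x0 hx0 (fun b b' => (h1 b).trans (h1 b').symm)
    rw [h1] at h2
    rw [h2] at hcon
    exact lt_irrefl _ hcon
  · obtain ⟨w', u', hS', hrot⟩ := rotate_sic hχ hp2 hS (v' / v)
    have h1 : ∀ b, B.valuation (ov χ w' u' (y0 - v' / v * x0) b) = B.valuation A0 := by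
      intro b
      obtain ⟨j, hj⟩ := hrot (y0 - v' / v * x0) b
      rw [hj, val_chi_mul, ← hline ((-b - x0) / v), div_mul_cancel₀ _ hv]
      congr 2
      · ring
      · field_simp
        ring
    have hx0 : y0 - v' / v * x0 ≠ 0 := by
      intro h
      have h3 := h1 0
      rw [h, hS'.zero, map_one] at h3
      rw [← h3] at hcon
      exact lt_irrefl _ hcon
    have h2 := coarse hp5 hB hχ hS' _ hx0 (fun b b' => (h1 b).trans (h1 b').symm)
    rw [h1] at h2
    rw [h2] at hcon
    exact lt_irrefl _ hcon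

end Pool.Agent.H990.SF
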