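import Pool.Agent.H990.SF.Finite

/-!
# Fiducial vectors: definitions, and the dimensions two and three
-/

set_option autoImplicit false
set_option linter.unusedSectionVars false

namespace Pool.Agent.H990.SF

open Finset Pool.Agent.H207.WH ComplexConjugate

/-- `(X ^ a Z ^ b u) (j) = χ (b (j - a)) u (j - a)`, the displacement operators for an additive
character `χ` (for `χ (j) = exp (2 π i j / d)` this is `X ^ a Z ^ b` with `X |j⟩ = |j + 1⟩`,
`Z |j⟩ = ω ^ j |j⟩`) -/
def disp {d : ℕ} {K : Type*} [Field K] (χ : AddChar (ZMod d) K) (a b : ZMod d) (u : ZMod d → K) :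
    ZMod d → K := fun j => χ (b * (j - a)) * u (j - a)

/-- a unit vector `ψ` in `ℂ ^ d` with `|⟨ψ, X ^ a Z ^ b ψ⟩| ^ 2 = 1 / (d + 1)` for `(a, b) ≠ 0` -/
def IsFiducial {d : ℕ} [NeZero d] (ψ : ZMod d → ℂ) : Prop :=
  ∑ j, ‖ψ j‖ ^ 2 = 1 ∧ ∀ a b : ZMod d, (a, b) ≠ (0, 0) →
    ‖∑ j, conj (ψ j) * disp ZMod.stdAddChar a b ψ j‖ ^ 2 = 1 / ((d : ℝ) + 1)

/-- a solution of the same equations over a field `K`: a vector `u` and a linear form `w` with
`w u = 1` and `w (D u) w (D⁻¹ u) = 1 / (d + 1)` for `D = X ^ a Z ^ b`,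
`D⁻¹ = χ (a b) X ^ (-a) Z ^ (-b)` -/
def IsSolution {d : ℕ} [NeZero d] {K : Type*} [Field K] (χ : AddChar (ZMod d) K)
    (w u : ZMod d → K) : Prop :=
  ∑ j, w j * u j = 1 ∧ ∀ a b : ZMod d, (a, b) ≠ (0, 0) →
    (∑ j, w j * disp χ a b u j) * (∑ j, w j * (χ (a * b) * disp χ (-a) (-b) u j))
      = 1 / ((d : K) + 1)

variable {p : ℕ} [Fact p.Prime]

theorem disp_ov {K : Type*} [Field K] (χ : AddChar (ZMod p) K) (w u : ZMod p → K) (a b : ZMod p) :
    ∑ j, w j * disp χ a b u j = χ (-(a * b)) * ov χ w u (-a) b := by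
  rw [ov, Finset.mul_sum]
  apply Finset.sum_congr rfl
  intro j _
  have e1 : χ (b * (j - a)) = χ (-(a * b)) * χ (b * j) := by
    rw [← AddChar.map_add_eq_mul]; congr 1; ring
  rw [disp, e1, sub_eq_add_neg]
  ring

theorem solution_sic {K : Type*} [Field K] {χ : AddChar (ZMod p) K} {w u : ZMod p → K}
    (h : IsSolution χ w u) : Sic χ w u := by
  constructor
  · rw [← h.1, ov]
    apply Finset.sum_congr rfl
    intro j _
    rw [zero_mul, AddChar.map_zero_eq_one, mul_one, add_zero]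
  · intro a b hab
    have h1 := h.2 (-a) b (fun h2 => hab ⟨neg_eq_zero.mp (congrArg Prod.fst h2),
      congrArg Prod.snd h2⟩)
    have h2 : ∑ j, w j * (χ (-a * b) * disp χ (- -a) (-b) u j)
        = χ (-a * b) * ∑ j, w j * disp χ (- -a) (-b) u j := by
      rw [Finset.mul_sum]
      apply Finset.sum_congr rfl
      intro j _
      ring
    rw [h2, disp_ov, disp_ov, neg_neg] at h1
    have h3 : χ (a * b) * χ (-(a * b)) = 1 := by
      rw [← AddChar.map_add_eq_mul, add_neg_cancel, AddChar.map_zero_eq_one]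
    have e1 : -(-a * b) = a * b := by ring
    have e2 : -a * b = -(a * b) := by ring
    have e3 : -(a * -b) = a * b := by ring
    rw [e1, e2, e3] at h1
    rw [one_div] at h1
    rw [← h1]
    linear_combination (-(ov χ w u a b * ov χ w u (-a) (-b))) * χ (-(a * b)) * χ (a * b) * h3
      - (ov χ w u a b * ov χ w u (-a) (-b)) * h3

theorem fiducial_solution {ψ : ZMod p → ℂ} (h : IsFiducial ψ) :
    IsSolution ZMod.stdAddChar (fun j => conj (ψ j)) ψ := by
  constructor
  · have h1 : ∑ j, conj (ψ j) * ψ j = ((∑ j, ‖ψ j‖ ^ 2 : ℝ) : ℂ) := by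
      push_cast
      apply Finset.sum_congr rfl
      intro j _
      rw [Complex.conj_mul']
    rw [h1, h.1]
    norm_num
  · intro a b hab
    have h1 := h.2 a b hab
    have h2 : ∑ j, conj (ψ j) * (ZMod.stdAddChar (a * b) * disp ZMod.stdAddChar (-a) (-b) ψ j)
        = conj (∑ j, conj (ψ j) * disp ZMod.stdAddChar a b ψ j) := by
      rw [map_sum, ← Equiv.sum_comp (Equiv.subRight a)]
      apply Finset.sum_congr rfl
      intro j _
      simp only [disp, Equiv.subRight_apply, map_mul, Complex.conj_conj, sub_neg_eq_add,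
        sub_add_cancel]
      have e1 : conj (ZMod.stdAddChar (b * (j - a)) : ℂ)
          = ZMod.stdAddChar (a * b) * ZMod.stdAddChar (-b * j) := by
        rw [← AddChar.map_neg_eq_conj, ← AddChar.map_add_eq_mul]
        congr 1; ring
      rw [e1]
      ring
    rw [h2, Complex.mul_conj, Complex.normSq_eq_norm_sq, h1]
    push_cast
    rfl

theorem finite_ge_five (hp5 : 5 ≤ p) {K : Type*} [Field K] [CharZero K] (χ : AddChar (ZMod p) K)
    (hχ : χ.IsPrimitive) :
    {M : Matrix (ZMod p) (ZMod p) K | ∃ w u, IsSolution χ w u ∧ M = Matrix.vecMulVec u w}.Finite := by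
  apply (finite_pairs χ hp5 hχ).subset
  rintro M ⟨w, u, h, rfl⟩
  refine ⟨w, u, solution_sic h, fun x y => ?_⟩
  rw [Matrix.vecMulVec_apply, mul_comm]

theorem algebraic_ge_five (hp5 : 5 ≤ p) {K : Type*} [Field K] [CharZero K]
    (χ : AddChar (ZMod p) K) (hχ : χ.IsPrimitive) {w u : ZMod p → K} (h : IsSolution χ w u)
    (i j : ZMod p) : IsAlgebraic ℚ (u i * w j) := by
  rw [mul_comm]
  exact alg_entry hp5 hχ (solution_sic h) j i

/-- the set of the projectors onto the fiducial vectors -/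
def projectors (d : ℕ) [NeZero d] : Set (Matrix (ZMod d) (ZMod d) ℂ) :=
  {P | ∃ ψ : ZMod d → ℂ, IsFiducial ψ ∧ P = Matrix.vecMulVec ψ (star ψ)}

theorem projectors_ge_five (hp5 : 5 ≤ p) : (projectors p).Finite := by
  apply (finite_ge_five hp5 ZMod.stdAddChar (ZMod.isPrimitive_stdAddChar p)).subset
  rintro P ⟨ψ, hψ, rfl⟩
  exact ⟨_, _, fiducial_solution hψ, rfl⟩

end Pool.Agent.H990.SF
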