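import Pool.Agent.H990.SF.Small

/-!
# Fiducial vectors in the dimensions two and three
-/

set_option autoImplicit false

namespace Pool.Agent.H990.SF

open Finset Pool.Agent.H207.WH ComplexConjugate

theorem sq_finite (c : ℂ) : {s : ℂ | s ^ 2 = c}.Finite := by
  obtain ⟨r, hr⟩ := IsAlgClosed.exists_pow_nat_eq c two_pos
  apply (Set.toFinite ({r, -r} : Set ℂ)).subset
  intro s hs
  have h1 : (s - r) * (s + r) = 0 := by
    have h2 : s ^ 2 = c := hs
    linear_combination h2 - hr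
  rcases mul_eq_zero.mp h1 with h2 | h2
  · left; exact sub_eq_zero.mp h2
  · right; exact eq_neg_of_add_eq_zero_left h2

theorem char_two : (ZMod.stdAddChar (1 : ZMod 2) : ℂ) = -1 := by
  have h1 : (ZMod.stdAddChar (1 : ZMod 2) : ℂ) ^ 2 = 1 := by
    rw [← AddChar.map_nsmul_eq_pow]
    have : (2 : ℕ) • (1 : ZMod 2) = 0 := by decide
    rw [this, AddChar.map_zero_eq_one]
  have h2 : (ZMod.stdAddChar (1 : ZMod 2) : ℂ) ≠ 1 := by
    intro h
    have h3 : (ZMod.stdAddChar (1 : ZMod 2) : ℂ) = ZMod.stdAddChar (0 : ZMod 2) := by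
      rw [h, AddChar.map_zero_eq_one]
    exact one_ne_zero (ZMod.injective_stdAddChar h3)
  have h3 : ((ZMod.stdAddChar (1 : ZMod 2) : ℂ) - 1) * ((ZMod.stdAddChar (1 : ZMod 2) : ℂ) + 1) = 0 := by
    linear_combination h1
  rcases mul_eq_zero.mp h3 with h4 | h4
  · exact absurd (sub_eq_zero.mp h4) h2
  · exact eq_neg_of_add_eq_zero_left h4

instance : Fact (Nat.Prime 2) := ⟨Nat.prime_two⟩
instance : Fact (Nat.Prime 3) := ⟨Nat.prime_three⟩

theorem sum_two (f : ZMod 2 → ℂ) : ∑ k, f k = f 0 + f 1 := Fin.sum_univ_two f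

theorem sum_three (f : ZMod 3 → ℂ) : ∑ k, f k = f 0 + f 1 + f 2 := Fin.sum_univ_three f

theorem projectors_two : (projectors 2).Finite := by
  let T : Set (ℂ × ℂ × ℂ) := {s | s ^ 2 = 1 / 3} ×ˢ ({s | s ^ 2 = 1 / 3} ×ˢ {s | s ^ 2 = -1 / 3})
  have hT : T.Finite := (sq_finite _).prod ((sq_finite _).prod (sq_finite _))
  let F : ℂ × ℂ × ℂ → Matrix (ZMod 2) (ZMod 2) ℂ := fun s i j =>
    if i = 0 then (if j = 0 then (1 + s.1) / 2 else (s.2.1 - s.2.2) / 2)
    else (if j = 0 then (s.2.1 + s.2.2) / 2 else (1 - s.1) / 2)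
  apply (hT.image F).subset
  rintro P ⟨ψ, hψ, rfl⟩
  have hS := solution_sic (fiducial_solution hψ)
  obtain ⟨h0, h1⟩ := hS
  have e11 : (1 : ZMod 2) + 1 = 0 := by decide
  have em : -(1 : ZMod 2) = 1 := by decide
  have h10 : ¬ ((1 : ZMod 2) = 0) := by decide
  have hov : ∀ a b, ov ZMod.stdAddChar (fun j => conj (ψ j)) ψ a b
      = conj (ψ 0) * ψ a + conj (ψ 1) * ψ (1 + a) * ZMod.stdAddChar b := by
    intro a b
    rw [ov, sum_two, mul_zero, mul_one, AddChar.map_zero_eq_one, mul_one, zero_add]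
  have a00 := h0
  have a01 := h1 0 1 (fun h => h10 h.2)
  have a10 := h1 1 0 (fun h => h10 h.1)
  have a11 := h1 1 1 (fun h => h10 h.1)
  rw [hov] at a00
  rw [hov, hov] at a01 a10 a11
  simp only [em, neg_zero, e11, add_zero, mul_one, mul_zero, AddChar.map_zero_eq_one,
    char_two] at a00 a01 a10 a11
  push_cast at a01 a10 a11
  refine ⟨(conj (ψ 0) * ψ 0 - conj (ψ 1) * ψ 1, conj (ψ 0) * ψ 1 + conj (ψ 1) * ψ 0,
    conj (ψ 0) * ψ 1 - conj (ψ 1) * ψ 0), ⟨?_, ?_, ?_⟩, ?_⟩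
  · show (conj (ψ 0) * ψ 0 - conj (ψ 1) * ψ 1) ^ 2 = 1 / 3
    linear_combination a01
  · show (conj (ψ 0) * ψ 1 + conj (ψ 1) * ψ 0) ^ 2 = 1 / 3
    linear_combination a10
  · show (conj (ψ 0) * ψ 1 - conj (ψ 1) * ψ 0) ^ 2 = -1 / 3
    linear_combination a11
  · ext i j
    have hi : i = 0 ∨ i = 1 := by
      revert i; decide
    have hj : j = 0 ∨ j = 1 := by
      revert j; decide
    rw [Matrix.vecMulVec_apply, Pi.star_apply]
    rcases hi with rfl | rfl <;> rcases hj with rfl | rfl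
    · simp only [F, if_true]
      show _ = ψ 0 * conj (ψ 0)
      linear_combination (-1 / 2 : ℂ) * a00
    · simp only [F, if_true, if_neg h10]
      show _ = ψ 0 * conj (ψ 1)
      ring
    · simp only [F, if_true, if_neg h10]
      show _ = ψ 1 * conj (ψ 0)
      ring
    · simp only [F, if_neg h10]
      show _ = ψ 1 * conj (ψ 1)
      linear_combination (-1 / 2 : ℂ) * a00

/-- the fiducial vectors `(0, 1, z) / √2`, `|z| = 1`, of dimension three -/
noncomputable def vec (z : ℂ) : ZMod 3 → ℂ := fun k => (![0, 1, z] : Fin 3 → ℂ) k * ((√2)⁻¹ : ℝ)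

theorem half : (((√2)⁻¹ : ℝ) : ℂ) * (((√2)⁻¹ : ℝ) : ℂ) = 1 / 2 := by
  rw [← Complex.ofReal_mul, ← mul_inv, Real.mul_self_sqrt (by norm_num)]
  norm_num

theorem vec_fiducial (z : ℂ) (hz : ‖z‖ = 1) : IsFiducial (vec z) := by
  have v0 : vec z 0 = 0 := by
    show (0 : ℂ) * _ = 0
    ring
  have v1 : vec z 1 = (((√2)⁻¹ : ℝ) : ℂ) := by
    show (1 : ℂ) * _ = _
    ring
  have v2 : vec z 2 = z * (((√2)⁻¹ : ℝ) : ℂ) := rfl
  have n1 : ‖(((√2)⁻¹ : ℝ) : ℂ)‖ ^ 2 = 1 / 2 := by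
    rw [Complex.norm_real, Real.norm_eq_abs, sq_abs, inv_pow, Real.sq_sqrt (by norm_num)]
    norm_num
  have nchi : ∀ t : ZMod 3, ‖(ZMod.stdAddChar t : ℂ)‖ = 1 := fun t => AddChar.norm_apply _ _
  have hc : conj (z * (((√2)⁻¹ : ℝ) : ℂ)) = conj z * (((√2)⁻¹ : ℝ) : ℂ) := by
    rw [map_mul, Complex.conj_ofReal]
  constructor
  · have h3 : ∀ f : ZMod 3 → ℝ, ∑ k, f k = f 0 + f 1 + f 2 := fun f => Fin.sum_univ_three f
    rw [h3, v0, v1, v2, norm_mul, mul_pow, n1, hz, norm_zero]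
    norm_num
  · intro a b hab
    have c0 : ∀ a : ZMod 3, a = 0 ∨ a = 1 ∨ a = 2 := by decide
    rw [sum_three]
    simp only [disp]
    rcases c0 a with rfl | rfl | rfl
    · have hb : b ≠ 0 := fun h => hab (by rw [h])
      rw [v0, v1, v2]
      simp only [sub_zero, v0, v1, v2]
      have hs := sum_chi (ZMod.isPrimitive_stdAddChar 3) b
      rw [if_neg hb, sum_three, zero_mul, one_mul, AddChar.map_zero_eq_one] at hs
      have hz2 : conj z * z = 1 := by
        rw [Complex.conj_mul', hz]; norm_num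
      have e1 : conj (0 : ℂ) * (ZMod.stdAddChar (b * 0) * 0) + conj (((√2)⁻¹ : ℝ) : ℂ) *
          (ZMod.stdAddChar (b * 1) * (((√2)⁻¹ : ℝ) : ℂ)) + conj (z * (((√2)⁻¹ : ℝ) : ℂ)) *
          (ZMod.stdAddChar (b * 2) * (z * (((√2)⁻¹ : ℝ) : ℂ))) = -(1 / 2) := by
        rw [hc, Complex.conj_ofReal, mul_comm b 2, mul_one]
        linear_combination (ZMod.stdAddChar b + ZMod.stdAddChar (2 * b) : ℂ) * half
          + (ZMod.stdAddChar (2 * b) * ((((√2)⁻¹ : ℝ) : ℂ) * (((√2)⁻¹ : ℝ) : ℂ))) * hz2 + (1 / 2) * hs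
      rw [e1]
      norm_num
    · have e1 : (0 : ZMod 3) - 1 = 2 := by decide
      have e2 : (2 : ZMod 3) - 1 = 1 := by decide
      simp only [e1, e2, sub_self, v0, v1, v2]
      have e3 : conj (0 : ℂ) * (ZMod.stdAddChar (b * 2) * (z * (((√2)⁻¹ : ℝ) : ℂ)))
          + conj (((√2)⁻¹ : ℝ) : ℂ) * (ZMod.stdAddChar (b * 0) * 0)
          + conj (z * (((√2)⁻¹ : ℝ) : ℂ)) * (ZMod.stdAddChar (b * 1) * (((√2)⁻¹ : ℝ) : ℂ))
          = conj z * ZMod.stdAddChar b * (1 / 2) := by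
        rw [hc, mul_one, map_zero]
        linear_combination (conj z * ZMod.stdAddChar b) * half
      rw [e3, norm_mul, norm_mul, RCLike.norm_conj, hz, nchi]
      norm_num
    · have e1 : (0 : ZMod 3) - 2 = 1 := by decide
      have e2 : (1 : ZMod 3) - 2 = 2 := by decide
      simp only [e1, e2, sub_self, v0, v1, v2]
      have e3 : conj (0 : ℂ) * (ZMod.stdAddChar (b * 1) * (((√2)⁻¹ : ℝ) : ℂ))
          + conj (((√2)⁻¹ : ℝ) : ℂ) * (ZMod.stdAddChar (b * 2) * (z * (((√2)⁻¹ : ℝ) : ℂ)))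
          + conj (z * (((√2)⁻¹ : ℝ) : ℂ)) * (ZMod.stdAddChar (b * 0) * 0)
          = z * ZMod.stdAddChar (b * 2) * (1 / 2) := by
        rw [Complex.conj_ofReal, map_zero]
        linear_combination (z * ZMod.stdAddChar (b * 2)) * half
      rw [e3, norm_mul, norm_mul, hz, nchi]
      norm_num

theorem projectors_three : (projectors 3).Infinite := by
  let z : ℕ → ℂ := fun n => (1 + n * Complex.I) / (1 - n * Complex.I)
  have hne : ∀ n : ℕ, (1 - n * Complex.I : ℂ) ≠ 0 := by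
    intro n h
    have := congrArg Complex.re h
    simp at this
  have hz : ∀ n, ‖z n‖ = 1 := by
    intro n
    show ‖(1 + n * Complex.I : ℂ) / (1 - n * Complex.I)‖ = 1
    have h1 : (1 + n * Complex.I : ℂ) = conj (1 - n * Complex.I : ℂ) := by
      simp
    rw [norm_div, h1, RCLike.norm_conj, div_self (norm_ne_zero_iff.mpr (hne n))]
  have hinj : Function.Injective z := by
    intro m n h
    have h1 : (1 + m * Complex.I : ℂ) / (1 - m * Complex.I) = (1 + n * Complex.I) / (1 - n * Complex.I) := h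
    rw [div_eq_div_iff (hne m) (hne n)] at h1
    have h2 : ((m : ℂ) - n) * Complex.I = 0 := by linear_combination (1 / 2 : ℂ) * h1
    rcases mul_eq_zero.mp h2 with h3 | h3
    · exact_mod_cast sub_eq_zero.mp h3
    · exact absurd h3 Complex.I_ne_zero
  apply Set.infinite_of_injective_forall_mem
    (f := fun n : ℕ => Matrix.vecMulVec (vec (z n)) (star (vec (z n))))
  · intro m n h
    apply hinj
    have h1 := congrFun (congrFun h 2) 1
    simp only [Matrix.vecMulVec_apply, Pi.star_apply] at h1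
    have v1 : ∀ z, vec z 1 = (((√2)⁻¹ : ℝ) : ℂ) := by
      intro z
      show (1 : ℂ) * _ = _
      ring
    have v2 : ∀ z, vec z 2 = z * (((√2)⁻¹ : ℝ) : ℂ) := fun z => rfl
    rw [v1, v2, v1, v2] at h1
    have h2 : star ((((√2)⁻¹ : ℝ) : ℂ)) = (((√2)⁻¹ : ℝ) : ℂ) := Complex.conj_ofReal _
    rw [h2, mul_assoc, mul_assoc, half] at h1
    exact mul_right_cancel₀ (by norm_num) h1
  · intro n
    exact ⟨_, vec_fiducial _ (hz n), rfl⟩

theorem projectors_finite_iff (p : ℕ) [Fact p.Prime] : (projectors p).Finite ↔ p ≠ 3 := by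
  have hp : p.Prime := Fact.out
  constructor
  · rintro h rfl
    exact projectors_three h
  · intro h3
    by_cases h5 : 5 ≤ p
    · exact projectors_ge_five h5
    · have h2 : p = 2 := by
        have := hp.two_le
        interval_cases p
        · rfl
        · exact absurd rfl h3
        · exact absurd hp (by norm_num)
      subst h2
      convert projectors_two

end Pool.Agent.H990.SF
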